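import Mathlib
import Pool.Agent.W484.BB.Tens

/-!
# Isotrivial abelian varieties over function fields: definitions
-/

set_option autoImplicit false

namespace Pool.Agent.Y145.Iso

open Module TensorProduct Pool.Agent.W484.BB

/-- The degree of the place below the point `x`: the smallest positive degree of an element of the
decomposition group of `x`. -/
noncomputable def ptDeg {Γ : Type*} [Group Γ] {Pt : Type*} [MulAction Γ Pt] (deg : Γ → ℤ)
    (x : Pt) : ℕ :=
  sInf {d : ℕ | 0 < d ∧ ∃ g : Γ, g • x = x ∧ deg g = d}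

/-- The Frobenius elements of the decomposition group of `x`. -/
def frobSet {Γ : Type*} [Group Γ] {Pt : Type*} [MulAction Γ Pt] (deg : Γ → ℤ) (x : Pt) : Set Γ :=
  {g | g • x = x ∧ deg g = ptDeg deg x}

/-- The average of the operators of the Frobenius elements at `x`: the Frobenius on the invariants
of inertia, and zero on the complement. -/
noncomputable def frobOp {Γ : Type*} [Group Γ] {Pt : Type*} [MulAction Γ Pt] (deg : Γ → ℤ)
    (x : Pt) {U : Type*} [AddCommGroup U] [Module ℂ U] (ρ : Γ → (U →ₗ[ℂ] U)) : U →ₗ[ℂ] U :=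
  ((frobSet deg x).ncard : ℂ)⁻¹ • ∑ᶠ g ∈ frobSet deg x, ρ g

/-- The classes in `H ^ (2 k + 1) (A) ⊗ H ^ 1 (C')` which are linear combinations of products of
`k` divisor classes and a correspondence, and on which every `g` acts as multiplication by
`q ^ ((k + 1) deg g)`. -/
noncomputable def invariantClasses {Γ : Type*} [Group Γ] (deg : Γ → ℤ) {V : Type*}
    [AddCommGroup V] [Module ℂ V] {W : Type*} [AddCommGroup W] [Module ℂ W]
    (ρ : Representation ℂ Γ V) (σ : Representation ℂ Γ W) (f : Γ) (q : ℂ) (k : ℕ) :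
    Submodule ℂ (ExteriorAlgebra ℂ V ⊗[ℂ] W) :=
  prodSpan₂ (ρ f) (σ f) q k ⊓
    ⨅ g : Γ, LinearMap.eqLocus (TensorProduct.map (ExteriorAlgebra.map (ρ g)).toLinearMap (σ g))
      (((q ^ (k + 1)) ^ deg g) • LinearMap.id)

end Pool.Agent.Y145.Iso
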