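import Pool.Agent.Y145.Iso.Orbit

/-!
# Averages of Frobenius operators are diagonalisable
-/

set_option autoImplicit false
set_option linter.unusedSectionVars false
set_option linter.style.haveILetI false

namespace Pool.Agent.Y145.Iso

open Module

section Root

variable {U : Type*} [AddCommGroup U] [Module ℂ U]

theorem pow_apply_eigen' (T : U →ₗ[ℂ] U) (u : U) (α : ℂ) (h : T u = α • u) (d : ℕ) :
    (T ^ d) u = α ^ d • u := by
  induction d with
  | zero => simp
  | succ d ih => rw [pow_succ', Module.End.mul_apply, ih, map_smul, h, smul_smul, pow_succ]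

theorem mem_span_of_pow (T : U →ₗ[ℂ] U) (w : U) (N : ℕ) (hN : 0 < N) (σ : ℂ) (hσ : σ ≠ 0)
    (h : (T ^ N) w = σ • w) :
    w ∈ Submodule.span ℂ {u : U | ∃ τ : ℂ, τ ^ N = σ ∧ T u = τ • u} := by
  obtain ⟨τ₀, hτ₀⟩ := IsAlgClosed.exists_pow_nat_eq σ hN
  have hτ₀0 : τ₀ ≠ 0 := by
    rintro rfl
    rw [zero_pow hN.ne'] at hτ₀
    exact hσ hτ₀.symm
  have hζ := Complex.isPrimitiveRoot_exp N hN.ne'
  generalize Complex.exp (2 * Real.pi * Complex.I / N) = ζ at hζ
  have hζ0 : ζ ≠ 0 := hζ.ne_zero hN.ne'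
  let τ : ℕ → ℂ := fun a => τ₀ * ζ ^ a
  have hτ0 : ∀ a, τ a ≠ 0 := fun a => mul_ne_zero hτ₀0 (pow_ne_zero _ hζ0)
  have hτN : ∀ a, τ a ^ N = σ := by
    intro a
    simp only [τ]
    rw [mul_pow, hτ₀, ← pow_mul, mul_comm a N, pow_mul, hζ.pow_eq_one, one_pow, mul_one]
  let x : ℕ → U := fun a => ∑ j ∈ Finset.range N, ((τ a)⁻¹ ^ j) • (T ^ j) w
  have hx : ∀ a, T (x a) = τ a • x a := by
    intro a
    simp only [x]
    rw [map_sum, Finset.smul_sum]
    have h1 : ∀ j, T (((τ a)⁻¹ ^ j) • (T ^ j) w) = τ a • (((τ a)⁻¹ ^ (j + 1)) • (T ^ (j + 1)) w) := by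
      intro j
      rw [map_smul, pow_succ' T, Module.End.mul_apply, smul_smul, pow_succ', ← mul_assoc,
        mul_inv_cancel₀ (hτ0 a), one_mul]
    rw [Finset.sum_congr rfl fun j _ => h1 j]
    have h2 := Finset.sum_range_succ (fun j => τ a • (((τ a)⁻¹ ^ j) • (T ^ j) w)) N
    rw [Finset.sum_range_succ' (fun j => τ a • (((τ a)⁻¹ ^ j) • (T ^ j) w)) N] at h2
    have h3 : τ a • (((τ a)⁻¹ ^ N) • (T ^ N) w) = τ a • (((τ a)⁻¹ ^ 0) • (T ^ 0) w) := by
      rw [h, smul_smul ((τ a)⁻¹ ^ N), inv_pow, hτN, inv_mul_cancel₀ hσ, pow_zero, pow_zero,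
        Module.End.one_apply]
    rw [h3] at h2
    exact add_right_cancel h2
  have hsum : ∑ a ∈ Finset.range N, x a = (N : ℂ) • w := by
    simp only [x]
    rw [Finset.sum_comm]
    have h1 : ∀ j ∈ Finset.range N, ∑ a ∈ Finset.range N, ((τ a)⁻¹ ^ j) • (T ^ j) w =
        if j = 0 then (N : ℂ) • w else 0 := by
      intro j hj
      rw [← Finset.sum_smul]
      split_ifs with h0
      · subst h0
        simp
      · have h2 : ∑ a ∈ Finset.range N, (τ a)⁻¹ ^ j = 0 := by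
          have h3 : ∀ a, (τ a)⁻¹ ^ j = τ₀⁻¹ ^ j * ((ζ⁻¹) ^ j) ^ a := by
            intro a
            simp only [τ]
            rw [mul_inv, mul_pow]
            congr 1
            simp only [inv_pow]
            rw [← pow_mul, ← pow_mul, mul_comm a j]
          rw [Finset.sum_congr rfl fun a _ => h3 a, ← Finset.mul_sum]
          have h4 : (ζ⁻¹) ^ j ≠ 1 := by
            intro h5
            rw [inv_pow, inv_eq_one] at h5
            exact h0 (Nat.eq_zero_of_dvd_of_lt ((hζ.pow_eq_one_iff_dvd j).1 h5)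
              (Finset.mem_range.1 hj))
          have h6 : ∑ a ∈ Finset.range N, ((ζ⁻¹) ^ j) ^ a = 0 := by
            rw [geom_sum_eq h4, ← pow_mul, mul_comm j N, pow_mul, inv_pow, hζ.pow_eq_one]
            simp
          rw [h6, mul_zero]
        rw [h2, zero_smul]
    rw [Finset.sum_congr rfl h1, Finset.sum_ite_eq' (Finset.range N) 0,
      if_pos (Finset.mem_range.2 hN)]
  have hN0 : (N : ℂ) ≠ 0 := by exact_mod_cast hN.ne'
  have hw : w = (N : ℂ)⁻¹ • ∑ a ∈ Finset.range N, x a := by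
    rw [hsum, smul_smul, inv_mul_cancel₀ hN0, one_smul]
  rw [hw]
  refine Submodule.smul_mem _ _ (Submodule.sum_mem _ fun a _ => Submodule.subset_span ?_)
  exact ⟨τ a, hτN a, hx a⟩

end Root

section Avg

variable {Γ : Type*} [Group Γ] {deg : Γ → ℤ}

/-- Two elements of the same degree have a common power. -/
theorem exists_pow_eq (hdeg : ∀ g h, deg (g * h) = deg g + deg h)
    (hker : {g | deg g = 0}.Finite) (g h : Γ) (hgh : deg g = deg h) :
    ∃ N : ℕ, 0 < N ∧ g ^ N = h ^ N := by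
  classical
  -- the kernel as a finite group
  let χ : Γ →* Multiplicative ℤ :=
    { toFun := fun g => Multiplicative.ofAdd (deg g)
      map_one' := by rw [deg_one hdeg]; rfl
      map_mul' := fun a b => by rw [hdeg]; rfl }
  have hmem : ∀ a, a ∈ χ.ker ↔ deg a = 0 := by
    intro a
    rw [MonoidHom.mem_ker]
    exact Iff.rfl
  haveI hfin : Finite χ.ker := by
    refine Set.Finite.to_subtype (hker.subset ?_)
    intro a ha
    exact (hmem a).1 ha
  -- a power of `g` commutes with the kernel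
  let c : Γ →* MulAut χ.ker := MulAut.conjNormal
  haveI : Finite (MulAut χ.ker) := Finite.of_injective (fun e : MulAut χ.ker => (e : χ.ker → χ.ker))
    (fun e e' hee => MulEquiv.ext fun x => congrFun hee x)
  obtain ⟨M, hM, hM1⟩ := (isOfFinOrder_iff_pow_eq_one (x := c g)).1 (isOfFinOrder_of_finite _)
  have hcomm : ∀ a : Γ, deg a = 0 → g ^ M * a = a * g ^ M := by
    intro a ha
    have h1 : c (g ^ M) = 1 := by rw [map_pow, hM1]
    have h2 := congrArg (fun e : MulAut χ.ker => ((e ⟨a, (hmem a).2 ha⟩ : χ.ker) : Γ)) h1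
    simp only [c, MulAut.conjNormal_apply, MulAut.one_apply] at h2
    calc g ^ M * a = g ^ M * a * (g ^ M)⁻¹ * g ^ M := by group
      _ = a * g ^ M := by rw [h2]
  -- `h ^ M = g ^ M * b`
  let b : Γ := (g ^ M)⁻¹ * h ^ M
  have hb : deg b = 0 := by
    simp only [b]
    rw [hdeg, deg_inv hdeg, deg_pow hdeg, deg_pow hdeg, hgh]
    ring
  obtain ⟨L, hL, hL1⟩ := (isOfFinOrder_iff_pow_eq_one (x := (⟨b, (hmem b).2 hb⟩ : χ.ker))).1
    (isOfFinOrder_of_finite _)
  have hbL : b ^ L = 1 := by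
    have := congrArg (fun e : χ.ker => (e : Γ)) hL1
    simpa using this
  refine ⟨M * L, Nat.mul_pos hM hL, ?_⟩
  have h3 : h ^ M = g ^ M * b := by simp only [b]; group
  have h4 : Commute (g ^ M) b := hcomm b hb
  rw [pow_mul, pow_mul, h3, h4.mul_pow, hbL, mul_one]

variable {U : Type*} [AddCommGroup U] [Module ℂ U]

/-- The averages are diagonalisable. -/
theorem avg_diag (hdeg : ∀ g h, deg (g * h) = deg g + deg h) (hker : {g | deg g = 0}.Finite)
    {f : Γ} (hf : deg f = 1) (ρ : Γ →* (U →ₗ[ℂ] U)) (D : Subgroup Γ) (d : ℕ) {φ : Γ}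
    (hφ : φ ∈ lev deg D d) (B : ℝ) (hB : 0 < B)
    (hspan : Submodule.span ℂ {u : U | ∃ α : ℂ, ‖α‖ ^ 2 = B ∧ ρ f u = α • u} = ⊤) :
    Submodule.span ℂ {u : U | ∃ α ∈ {α : ℂ | α = 0 ∨ ‖α‖ ^ 2 = B ^ d},
      avg (lev deg D d) ρ u = α • u} = ⊤ := by
  classical
  obtain ⟨N, hN, hNe⟩ := exists_pow_eq hdeg hker φ (f ^ d) (by rw [hφ.2, deg_pow hdeg, hf]; ring)
  set T := avg (lev deg D d) ρ with hT
  set e := avg (lev deg D 0) ρ with he
  have hTe : T * e = T := by
    rw [hT, he, avg_mul_avg hker ρ ⟨φ, hφ⟩ hdeg, add_zero]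
  have hTφ : T = ρ φ * e := avg_eq_mul hdeg hker ρ hφ
  have hcomm : ρ φ * e = e * ρ φ := avg_comm hdeg hker ρ hφ
  have hee : e * e = e := by
    rw [he, avg_mul_avg hker ρ ⟨1, D.one_mem, deg_one hdeg⟩ hdeg, add_zero]
  have hTN : T ^ N = (ρ φ) ^ N * e := by
    have h1 : ∀ n : ℕ, 0 < n → T ^ n = (ρ φ) ^ n * e := by
      intro n hn
      rw [hTφ]
      have h2 : Commute (ρ φ) e := hcomm
      rw [h2.mul_pow]
      have h3 : e ^ n = e := by
        induction n with
        | zero => omega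
        | succ n ih =>
          rcases Nat.eq_zero_or_pos n with rfl | h0
          · simp
          · rw [pow_succ, ih h0, hee]
      rw [h3]
    exact h1 N hN
  have hφN : (ρ φ) ^ N = (ρ f) ^ (d * N) := by
    rw [← map_pow, hNe, map_pow, map_pow, ← pow_mul]
  rw [eq_top_iff, ← hspan]
  refine Submodule.span_le.2 ?_
  rintro u ⟨α, hα, hu⟩
  have hα0 : α ≠ 0 := by
    rintro rfl
    rw [norm_zero] at hα
    norm_num at hα
    linarith
  have h1 : u = (u - e u) + e u := by abel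
  rw [h1]
  refine Submodule.add_mem _ (Submodule.subset_span ⟨0, Or.inl rfl, ?_⟩) ?_
  · rw [map_sub, ← Module.End.mul_apply T e, hTe, sub_self, zero_smul]
  · have h2 : (T ^ N) (e u) = (α ^ (d * N)) • e u := by
      rw [hTN, hφN, ← Module.End.mul_apply, mul_assoc, hee]
      have h3 : (ρ f) ^ (d * N) * e = e * (ρ f) ^ (d * N) := by
        rw [← hφN]
        exact (Commute.pow_left hcomm N : Commute ((ρ φ) ^ N) e)
      rw [h3, Module.End.mul_apply, Pool.Agent.Y145.Iso.pow_apply_eigen' (ρ f) u α hu, map_smul]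
    have h4 := mem_span_of_pow T (e u) N hN (α ^ (d * N)) (pow_ne_zero _ hα0) h2
    refine Submodule.span_mono ?_ h4
    rintro w ⟨τ, hτ, hw⟩
    refine ⟨τ, Or.inr ?_, hw⟩
    have h5 := congrArg norm hτ
    rw [norm_pow, norm_pow, pow_mul] at h5
    have h6 : ‖τ‖ = ‖α‖ ^ d := (pow_left_inj₀ (norm_nonneg _) (by positivity) hN.ne').1 h5
    rw [h6, ← pow_mul, mul_comm, pow_mul, hα]

end Avg

end Pool.Agent.Y145.Iso
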