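import Mathlib
import Pool.Agent.W484.BB.Zeta

/-!
# Euler products whose logarithmic derivative is a combination of powers
-/

set_option autoImplicit false
set_option linter.unusedSectionVars false

namespace Pool.Agent.Y145.Iso

open Complex

theorem hasSum_fiber' {P : Type*} (deg : P → ℕ) (hdeg : ∀ v, 0 < deg v) (β : P → ℂ) (x : ℂ)
    (v : P) (hx : ‖β v * x ^ deg v‖ < 1) :
    HasSum (fun m : ℕ => if deg v ∣ m then (deg v : ℂ) * β v ^ (m / deg v) * x ^ m / m else 0)
      (-log (1 - β v * x ^ deg v)) := by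
  have h2 := Complex.hasSum_taylorSeries_neg_log hx
  have hinj : Function.Injective (fun n : ℕ => deg v * n) :=
    fun a b h => Nat.eq_of_mul_eq_mul_left (hdeg v) h
  rw [← hinj.hasSum_iff]
  · convert h2 using 2 with n
    simp only [Function.comp, dvd_mul_right, if_true]
    have h3 : (deg v : ℂ) ≠ 0 := by exact_mod_cast (hdeg v).ne'
    rw [Nat.mul_div_cancel_left _ (hdeg v)]
    push_cast
    rw [mul_pow, ← pow_mul, mul_assoc, mul_div_mul_left _ _ h3]
  · intro m hm
    rw [if_neg]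
    rintro ⟨n, rfl⟩
    exact hm ⟨n, rfl⟩

/-- A general Euler product. -/
theorem hasProd_euler {P : Type*} (deg : P → ℕ) (hdeg : ∀ v, 0 < deg v)
    (hfin : ∀ m, 0 < m → {v | deg v ∣ m}.Finite) (β : P → ℂ) (b B C : ℝ) (hb : 1 ≤ b) (hB : 1 ≤ B)
    (hC : 0 ≤ C)
    (hβ : ∀ v, ‖β v‖ ≤ b ^ deg v)
    (hgrowth : ∀ m (hm : 0 < m), (∑ v ∈ (hfin m hm).toFinset, (deg v : ℝ)) ≤ C * B ^ m)
    {J₁ J₂ : Type*} [Fintype J₁] [Fintype J₂] (c : J₁ → ℂ) (c' : J₂ → ℂ)
    (hcount : ∀ m (hm : 0 < m), (∑ v ∈ (hfin m hm).toFinset, (deg v : ℂ) * β v ^ (m / deg v)) =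
      ∑ j, c' j ^ m - ∑ j, c j ^ m)
    (x : ℂ) (hx : ‖x‖ * (b * B) < 1) (hc : ∀ j, ‖c j * x‖ < 1) (hc' : ∀ j, ‖c' j * x‖ < 1) :
    HasProd (fun v => (1 - β v * x ^ deg v)⁻¹) ((∏ j, (1 - c j * x)) / ∏ j, (1 - c' j * x)) := by
  classical
  have hb0 : 0 < b := by linarith
  have hB0 : 0 < B := by linarith
  have hbx : ‖x‖ * b < 1 := by
    refine lt_of_le_of_lt ?_ hx
    refine mul_le_mul_of_nonneg_left ?_ (norm_nonneg _)
    nlinarith
  have hβx : ∀ v, ‖β v * x ^ deg v‖ < 1 := by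
    intro v
    rw [norm_mul, norm_pow]
    calc ‖β v‖ * ‖x‖ ^ deg v ≤ b ^ deg v * ‖x‖ ^ deg v :=
          mul_le_mul_of_nonneg_right (hβ v) (by positivity)
      _ = (‖x‖ * b) ^ deg v := by rw [mul_pow, mul_comm]
      _ < 1 := pow_lt_one₀ (by positivity) hbx (hdeg v).ne'
  -- the double family
  let f : ℕ × P → ℂ := fun z =>
    if deg z.2 ∣ z.1 then (deg z.2 : ℂ) * β z.2 ^ (z.1 / deg z.2) * x ^ z.1 / z.1 else 0
  have hrow : ∀ m, HasSum (fun v => f (m, v)) (x ^ m / m * (∑ j, c' j ^ m - ∑ j, c j ^ m)) := by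
    intro m
    rcases Nat.eq_zero_or_pos m with rfl | hm
    · have h1 : ∀ v, f (0, v) = 0 := by
        intro v
        simp [f]
      simp only [h1, Nat.cast_zero, div_zero, zero_mul]
      exact hasSum_zero
    · rw [← hcount m hm, Finset.mul_sum]
      have h1 : ∑ v ∈ (hfin m hm).toFinset, x ^ m / m * ((deg v : ℂ) * β v ^ (m / deg v)) =
          ∑ v ∈ (hfin m hm).toFinset, f (m, v) := by
        refine Finset.sum_congr rfl fun v hv => ?_
        rw [Set.Finite.mem_toFinset] at hv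
        have hv' : deg v ∣ m := hv
        simp only [f]
        rw [if_pos hv']
        ring
      rw [h1]
      refine hasSum_sum_of_ne_finset_zero fun v hv => ?_
      rw [Set.Finite.mem_toFinset] at hv
      simp only [f]
      exact if_neg hv
  have hnorm : ∀ m v, ‖f (m, v)‖ ≤ if deg v ∣ m then (deg v : ℝ) * (‖x‖ * b) ^ m / m else 0 := by
    intro m v
    simp only [f]
    split_ifs with h
    · rw [norm_div, norm_mul, norm_mul, norm_pow, norm_pow, Complex.norm_natCast,
        Complex.norm_natCast]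
      refine div_le_div_of_nonneg_right ?_ (Nat.cast_nonneg _)
      rw [mul_assoc]
      refine mul_le_mul_of_nonneg_left ?_ (Nat.cast_nonneg _)
      have h2 : ‖β v‖ ^ (m / deg v) ≤ b ^ m := by
        calc ‖β v‖ ^ (m / deg v) ≤ (b ^ deg v) ^ (m / deg v) :=
              pow_le_pow_left₀ (norm_nonneg _) (hβ v) _
          _ = b ^ m := by rw [← pow_mul, Nat.mul_div_cancel' h]
      calc ‖β v‖ ^ (m / deg v) * ‖x‖ ^ m ≤ b ^ m * ‖x‖ ^ m :=
            mul_le_mul_of_nonneg_right h2 (by positivity)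
        _ = (‖x‖ * b) ^ m := by rw [mul_pow, mul_comm]
    · simp
  have hrown : ∀ m, Summable (fun v => ‖f (m, v)‖) := fun m => (hrow m).summable.norm
  have hbound : ∀ m, ∑' v, ‖f (m, v)‖ ≤ C * (‖x‖ * (b * B)) ^ m := by
    intro m
    have hnn : 0 ≤ C * (‖x‖ * (b * B)) ^ m := by positivity
    rcases Nat.eq_zero_or_pos m with rfl | hm
    · have h1 : ∀ v, f (0, v) = 0 := by
        intro v
        simp [f]
      simp only [h1, norm_zero, tsum_zero]
      exact hnn
    · have hm1 : (1 : ℝ) ≤ m := by exact_mod_cast hm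
      have hfinsum : ∑' v, ‖f (m, v)‖ = ∑ v ∈ (hfin m hm).toFinset, ‖f (m, v)‖ := by
        refine tsum_eq_sum fun v hv => ?_
        rw [Set.Finite.mem_toFinset] at hv
        have : f (m, v) = 0 := by
          simp only [f]
          exact if_neg hv
        rw [this, norm_zero]
      rw [hfinsum]
      calc ∑ v ∈ (hfin m hm).toFinset, ‖f (m, v)‖
          ≤ ∑ v ∈ (hfin m hm).toFinset, (‖x‖ * b) ^ m * (deg v : ℝ) := by
            refine Finset.sum_le_sum fun v hv => ?_
            rw [Set.Finite.mem_toFinset] at hv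
            refine (hnorm m v).trans ?_
            have hv' : deg v ∣ m := hv
            rw [if_pos hv', mul_comm ((‖x‖ * b) ^ m)]
            exact div_le_self (by positivity) hm1
        _ = (‖x‖ * b) ^ m * ∑ v ∈ (hfin m hm).toFinset, (deg v : ℝ) := by rw [Finset.mul_sum]
        _ ≤ (‖x‖ * b) ^ m * (C * B ^ m) :=
            mul_le_mul_of_nonneg_left (hgrowth m hm) (by positivity)
        _ = C * (‖x‖ * (b * B)) ^ m := by rw [← mul_assoc ‖x‖, mul_pow _ B]; ring
  have hsumm : Summable f := by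
    refine Summable.of_norm ?_
    rw [summable_prod_of_nonneg (fun z => norm_nonneg _)]
    refine ⟨hrown, ?_⟩
    refine Summable.of_nonneg_of_le (fun m => tsum_nonneg fun v => norm_nonneg _) hbound ?_
    refine Summable.mul_left _ (summable_geometric_of_lt_one (by positivity) hx)
  obtain ⟨A, hA⟩ := hsumm
  have hA1 := hA.prod_fiberwise hrow
  have hA2 : HasSum (fun m : ℕ => x ^ m / m * (∑ j, c' j ^ m - ∑ j, c j ^ m))
      (∑ j, -log (1 - c' j * x) - ∑ j, -log (1 - c j * x)) := by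
    have h3 := hasSum_sum (s := Finset.univ)
      (fun k _ => Complex.hasSum_taylorSeries_neg_log (hc k))
    have h3' := hasSum_sum (s := Finset.univ)
      (fun k _ => Complex.hasSum_taylorSeries_neg_log (hc' k))
    have h4 : ∀ m : ℕ, x ^ m / m * (∑ j, c' j ^ m - ∑ j, c j ^ m) =
        ∑ j, (c' j * x) ^ m / m - ∑ j, (c j * x) ^ m / m := by
      intro m
      simp only [mul_pow]
      rw [mul_sub, Finset.mul_sum, Finset.mul_sum]
      congr 1
      · exact Finset.sum_congr rfl fun k _ => by ring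
      · exact Finset.sum_congr rfl fun k _ => by ring
    simp only [h4]
    exact h3'.sub h3
  have hAeq : A = ∑ j, -log (1 - c' j * x) - ∑ j, -log (1 - c j * x) := hA1.unique hA2
  have hB' : HasSum (fun v => -log (1 - β v * x ^ deg v)) A := by
    have h1 : HasSum (f ∘ Prod.swap) A := (Equiv.prodComm P ℕ).hasSum_iff.2 hA
    exact h1.prod_fiberwise (fun v => hasSum_fiber' deg hdeg β x v (hβx v))
  have hne : ∀ z : ℂ, ‖z‖ < 1 → 1 - z ≠ 0 := by
    intro z hz h
    have h1 : z = 1 := (sub_eq_zero.1 h).symm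
    rw [h1, norm_one] at hz
    exact lt_irrefl _ hz
  have hlog : ∀ z : ℂ, ‖z‖ < 1 → log (1 - z)⁻¹ = -log (1 - z) := by
    intro z hz
    apply Complex.log_inv
    have h1 : 1 - z ∈ slitPlane := by
      left
      rw [sub_re, one_re]
      have := Complex.re_le_norm z
      linarith
    exact (mem_slitPlane_iff_arg.1 h1).1
  have hP := hasProd_of_hasSum_log (f := fun v => (1 - β v * x ^ deg v)⁻¹) (a := A)
    (fun v => inv_ne_zero (hne _ (hβx v))) (by
      simp only [hlog _ (hβx _)]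
      exact hB')
  convert hP using 1
  have hlast : ∀ z : ℂ, ‖z‖ < 1 → exp (-log (1 - z)) = (1 - z)⁻¹ := by
    intro z hz
    rw [exp_neg, exp_log (hne _ hz)]
  rw [hAeq, exp_sub, exp_sum, exp_sum, Finset.prod_congr rfl fun j _ => hlast _ (hc' j),
    Finset.prod_congr rfl fun j _ => hlast _ (hc j), Finset.prod_inv_distrib,
    Finset.prod_inv_distrib]
  rw [div_inv_eq_mul, div_eq_mul_inv, mul_comm]

/-- The version for factors of degree `r`. -/
theorem hasProd_euler_fin {P : Type*} (deg : P → ℕ) (hdeg : ∀ v, 0 < deg v)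
    (hfin : ∀ m, 0 < m → {v | deg v ∣ m}.Finite) {r : ℕ} (β : P → Fin r → ℂ) (b B C : ℝ)
    (hb : 1 ≤ b) (hB : 1 ≤ B) (hC : 0 ≤ C)
    (hβ : ∀ v l, ‖β v l‖ ≤ b ^ deg v)
    (hgrowth : ∀ m (hm : 0 < m), (∑ v ∈ (hfin m hm).toFinset, (deg v : ℝ)) ≤ C * B ^ m)
    {J₁ J₂ : Type*} [Fintype J₁] [Fintype J₂] (c : J₁ → ℂ) (c' : J₂ → ℂ)
    (hcount : ∀ m (hm : 0 < m), (∑ v ∈ (hfin m hm).toFinset,
      (deg v : ℂ) * ∑ l, β v l ^ (m / deg v)) = ∑ j, c' j ^ m - ∑ j, c j ^ m)
    (x : ℂ) (hx : ‖x‖ * (b * B) < 1) (hc : ∀ j, ‖c j * x‖ < 1) (hc' : ∀ j, ‖c' j * x‖ < 1) :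
    HasProd (fun v => (∏ l, (1 - x ^ deg v * β v l))⁻¹)
      ((∏ j, (1 - c j * x)) / ∏ j, (1 - c' j * x)) := by
  classical
  have hfin' : ∀ m, 0 < m → {v : P × Fin r | deg v.1 ∣ m}.Finite := by
    intro m hm
    have h1 : {v : P × Fin r | deg v.1 ∣ m} = {v | deg v ∣ m} ×ˢ (Set.univ : Set (Fin r)) := by
      ext v
      simp
    rw [h1]
    exact (hfin m hm).prod Set.finite_univ
  have hts : ∀ m (hm : 0 < m), (hfin' m hm).toFinset = (hfin m hm).toFinset ×ˢ Finset.univ := by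
    intro m hm
    ext v
    simp
  have h := hasProd_euler (fun v : P × Fin r => deg v.1) (fun v => hdeg v.1) hfin'
    (fun v => β v.1 v.2) b B (C * r) hb hB (by positivity) (fun v => hβ v.1 v.2) (by
      intro m hm
      rw [hts m hm, Finset.sum_product]
      simp only [Finset.sum_const, Finset.card_univ, Fintype.card_fin, nsmul_eq_mul]
      rw [← Finset.mul_sum]
      calc (r : ℝ) * ∑ v ∈ (hfin m hm).toFinset, (deg v : ℝ) ≤ r * (C * B ^ m) :=
            mul_le_mul_of_nonneg_left (hgrowth m hm) (Nat.cast_nonneg _)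
        _ = C * r * B ^ m := by ring) c c' (by
      intro m hm
      rw [hts m hm, Finset.sum_product, ← hcount m hm]
      refine Finset.sum_congr rfl fun v _ => ?_
      rw [Finset.mul_sum]) x hx hc hc'
  have h2 := h.prod_fiberwise (g := fun v : P => (∏ l, (1 - x ^ deg v * β v l))⁻¹) (by
    intro v
    have h3 : (∏ l, (1 - x ^ deg v * β v l))⁻¹ = ∏ l, (1 - β v l * x ^ deg v)⁻¹ := by
      rw [Finset.prod_inv_distrib]
      congr 1
      exact Finset.prod_congr rfl fun l _ => by rw [mul_comm]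
    rw [h3]
    exact hasProd_fintype _)
  exact h2

end Pool.Agent.Y145.Iso
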