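import Pool.Agent.Y145.Iso.Main

/-!
# The order of vanishing for isotrivial abelian varieties
-/

set_option autoImplicit false
set_option linter.unusedSectionVars false
set_option linter.style.haveILetI false

namespace Pool.Agent.Y145.Iso

open Module MulAction TensorProduct Pool.Agent.W484.BB NumberField Pool.Agent.H194R3.CM

section Order

theorem order_quot (q : ℝ) (hq : 1 < q) (k : ℕ) {r r' : ℕ} (a : Fin r → ℂ) (γ : Fin r' → ℂ)
    (ha : ∀ l, a l = 0 ∨ ‖a l‖ ^ 2 = q ^ (2 * k + 1)) :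
    (∀ s : ℂ, MeromorphicAt (fun s => (∏ l, fac q (γ l) s) / ∏ j : Fin r ⊕ Fin r,
      fac q (Sum.elim a (fun l => (q : ℂ) * a l) j) s) s) ∧
    meromorphicOrderAt (fun s => (∏ l, fac q (γ l) s) / ∏ j : Fin r ⊕ Fin r,
      fac q (Sum.elim a (fun l => (q : ℂ) * a l) j) s) (((k + 1 : ℕ) : ℕ) : ℂ) =
      ((Nat.card {l // γ l = (q : ℂ) ^ (k + 1)} : ℕ) : ℤ) := by
  classical
  have hq0 : 0 < q := by linarith
  have hmer : ∀ γ s, MeromorphicAt (fac q γ) s :=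
    fun γ s => (analyticAt_fac q hq0 γ _).meromorphicAt
  have hmer1 : ∀ s : ℂ, MeromorphicAt (fun s => ∏ l, fac q (γ l) s) s :=
    fun s => MeromorphicAt.fun_prod fun l _ => hmer _ _
  have hmer2 : ∀ s : ℂ, MeromorphicAt (fun s => ∏ j : Fin r ⊕ Fin r,
      fac q (Sum.elim a (fun l => (q : ℂ) * a l) j) s) s :=
    fun s => MeromorphicAt.fun_prod fun l _ => hmer _ _
  refine ⟨fun s => (hmer1 s).fun_div (hmer2 s), ?_⟩
  rw [fun_meromorphicOrderAt_div (hmer1 _) (hmer2 _),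
    meromorphicOrderAt_fun_prod (fun l _ => hmer _ _),
    meromorphicOrderAt_fun_prod (fun l _ => hmer _ _)]
  have hden : ∀ j ∈ (Finset.univ : Finset (Fin r ⊕ Fin r)),
      meromorphicOrderAt (fun s => fac q (Sum.elim a (fun l => (q : ℂ) * a l) j) s)
        (((k + 1 : ℕ) : ℕ) : ℂ) = 0 := by
    intro j _
    rw [order_fac q hq, if_neg]
    rw [fac_eq_zero_iff q hq0]
    intro h
    rcases j with j | j
    · rw [Sum.elim_inl] at h
      rcases ha j with h0 | h0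
      · rw [h0] at h
        exact pow_ne_zero (k + 1) (by exact_mod_cast hq0.ne') h.symm
      · rw [h, norm_pow, Complex.norm_real, Real.norm_of_nonneg hq0.le, ← pow_mul] at h0
        have := pow_right_injective₀ hq0 hq.ne' h0
        omega
    · rw [Sum.elim_inr] at h
      have hqc : (q : ℂ) ≠ 0 := by exact_mod_cast hq0.ne'
      rw [pow_succ, mul_comm ((q : ℂ) ^ k)] at h
      have h1 := mul_left_cancel₀ hqc h
      rcases ha j with h0 | h0
      · rw [h0] at h1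
        exact pow_ne_zero k hqc h1.symm
      · rw [h1, norm_pow, Complex.norm_real, Real.norm_of_nonneg hq0.le, ← pow_mul] at h0
        have := pow_right_injective₀ hq0 hq.ne' h0
        omega
  rw [Finset.sum_eq_zero hden, sub_zero]
  have hnum : ∀ l ∈ (Finset.univ : Finset (Fin r')),
      meromorphicOrderAt (fun s => fac q (γ l) s) (((k + 1 : ℕ) : ℕ) : ℂ) =
        if γ l = (q : ℂ) ^ (k + 1) then 1 else 0 := by
    intro l _
    rw [order_fac q hq]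
    simp only [fac_eq_zero_iff q hq0]
  rw [Finset.sum_congr rfl hnum, Nat.card_eq_fintype_card, Fintype.card_subtype,
    Finset.card_filter]
  push_cast
  refine Finset.sum_congr rfl fun l _ => ?_
  split_ifs <;> rfl

end Order


section Classes

variable {V : Type*} [AddCommGroup V] [Module ℂ V] {W : Type*} [AddCommGroup W] [Module ℂ W]

theorem prodSpan₂_pow_le (F : V →ₗ[ℂ] V) (G : W →ₗ[ℂ] W) (q : ℂ) (m : ℕ) (hm : 0 < m) (k : ℕ) :
    prodSpan₂ (F ^ m) (G ^ m) (q ^ m) k ≤ prodSpan₂ F G q k := by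
  refine Submodule.span_mono ?_
  rintro t ⟨Z, z, hZ, ⟨N, hN, hz⟩, rfl⟩
  refine ⟨Z, z, fun l => ?_, ⟨m * N, Nat.mul_pos hm hN, ?_⟩, rfl⟩
  · obtain ⟨h1, M, hM, h2⟩ := hZ l
    refine ⟨h1, m * M, Nat.mul_pos hm hM, ?_⟩
    rw [pow_mul, pow_mul]
    exact h2
  · rw [pow_mul, pow_mul, pow_mul]
    exact hz

variable {Γ : Type*} [Group Γ] {deg : Γ → ℤ}

theorem invariantClasses_eq [FiniteDimensional ℂ W] (hdeg : ∀ g h, deg (g * h) = deg g + deg h)
    {f : Γ} (hf : deg f = 1)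
    (ρ : Representation ℂ Γ V) (σ : Representation ℂ Γ W) (q : ℂ)
    (m : ℕ) (hm : 0 < m) (k : ℕ) (E : Set ℂ) (hE : ∀ ρ ∈ E, ρ ≠ 0)
    (hG : Submodule.span ℂ {w : W | ∃ ρ ∈ E, (σ f ^ m) w = ρ • w} = ⊤)
    (hmain : ∀ μ ∈ E, ∀ x : ExteriorAlgebra ℂ V, x ∈ ⋀[ℂ]^(2 * k + 1) V →
      ExteriorAlgebra.map (ρ f ^ m) x = ((q ^ m) ^ (k + 1) / μ) • x →
        x ∈ prodSpan (ρ f ^ m) (q ^ m) μ k) (T : Submodule ℂ ((⋀[ℂ]^(2 * k + 1) V) ⊗[ℂ] W))
    (hT : ∀ u, u ∈ T ↔ ∀ g, Representation.tprod (extRep ρ (2 * k + 1)) σ g u =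
      ((q ^ (k + 1)) ^ deg g) • u) :
    invariantClasses deg ρ σ f q k = T.map (incl V W (2 * k + 1)) := by
  classical
  apply le_antisymm
  · rintro t ⟨ht1, ht2⟩
    obtain ⟨u, rfl⟩ := prodSpan₂_le_range _ _ _ _ ht1
    refine ⟨u, ?_, rfl⟩
    rw [SetLike.mem_coe, hT]
    intro g
    rw [SetLike.mem_coe, Submodule.mem_iInf] at ht2
    have h1 := ht2 g
    rw [mem_eqLocus_smul, map_incl, ← map_smul] at h1
    exact incl_injective _ h1
  · rintro _ ⟨u, hu, rfl⟩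
    rw [SetLike.mem_coe, hT] at hu
    refine ⟨?_, ?_⟩
    · have h1 : u ∈ tate (ρ f ^ m) (σ f ^ m) (2 * k + 1) ((q ^ m) ^ (k + 1)) := by
        rw [mem_tate]
        have h2 := hu (f ^ m)
        rw [deg_pow hdeg, hf, mul_one, zpow_natCast, Representation.tprod_apply, extRep_apply,
          map_pow, map_pow] at h2
        rw [h2]
        congr 1
        rw [← pow_mul, ← pow_mul, mul_comm]
      have h3 : incl V W (2 * k + 1) u ∈
          algebraicClasses (ρ f ^ m) (σ f ^ m) (q ^ m) k := by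
        rw [algebraicClasses_eq (ρ f ^ m) (σ f ^ m) (q ^ m) k E hE hG hmain]
        exact ⟨u, h1, rfl⟩
      exact prodSpan₂_pow_le _ _ _ m hm _ h3.1
    · rw [SetLike.mem_coe, Submodule.mem_iInf]
      intro g
      rw [mem_eqLocus_smul, map_incl, ← map_smul]
      congr 1
      exact hu g

end Classes

theorem frobOp_eq {Γ : Type*} [Group Γ] {deg : Γ → ℤ} {Pt : Type*} [MulAction Γ Pt]
    {V : Type*} [AddCommGroup V] [Module ℂ V] (ρ : Representation ℂ Γ V) (n : ℕ) (x : Pt) :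
    frobOp deg x (fun g => exteriorPower.map n (ρ g)) =
      avg (lev deg (stabilizer Γ x) (ptDeg deg x : ℤ)) (extRep ρ n) := rfl

/-- **The formula for isotrivial abelian varieties.** -/
theorem isotrivial (p : ℕ) [Fact p.Prime] (a m : ℕ) (ha : 0 < a) (hm : 0 < m)
    {I : Type} [Finite I] (K : I → Type) [∀ i, Field (K i)] [∀ i, NumberField (K i)]
    [∀ i, IsCMField (K i)] (π : ∀ i, K i)
    (hweil : ∀ i, ∀ φ : K i →+* ℂ, ‖φ (π i)‖ ^ 2 = (p : ℝ) ^ (a * m))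
    (hflip : ∀ x y : Σ i, (K i →+* ℂ), y ≠ x → y ≠ bar x → Flipped x y)
    (hspread : ∀ i, (finrank ℚ (K i) : ℝ) < 3 * spread p (a * m) (π i))
    (S : Set ℂ) (hS : ∀ μ ∈ S, ∃ N : ℕ, 0 < N ∧ μ ^ (2 * N) = ((p : ℂ) ^ (a * m)) ^ N)
    (hSspread : S.Nonempty → ∀ i, (finrank ℚ (K i) : ℝ) < 2 * spread p (a * m) (π i))
    {Γ : Type} [Group Γ] (deg : Γ → ℤ) (hdeg : ∀ g h, deg (g * h) = deg g + deg h)
    (hker : {g | deg g = 0}.Finite) (f : Γ) (hf : deg f = 1)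
    {Pt : Type} [MulAction Γ Pt] (hPt : ∀ x : Pt, ∃ g : Γ, g • x = x ∧ 0 < deg g)
    {W : Type} [AddCommGroup W] [Module ℂ W] [FiniteDimensional ℂ W] (σ : Representation ℂ Γ W)
    (hσ : Submodule.span ℂ {w : W | ∃ ρ : ℂ, (IsIntegral ℤ ρ ∧ ‖ρ‖ ^ 2 = (p : ℝ) ^ a) ∧
      σ f w = ρ • w} = ⊤)
    (hfix : ∀ g : Γ, 0 < deg g → {x : Pt | g • x = x}.Finite ∧
      ({x : Pt | g • x = x}.ncard : ℂ) =
        1 + ((p : ℂ) ^ a) ^ deg g - LinearMap.trace ℂ W (σ g))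
    {V : Type} [AddCommGroup V] [Module ℂ V] [FiniteDimensional ℂ V] (ρ : Representation ℂ Γ V)
    (hρ : Submodule.span ℂ {v : V | (∃ i, ∃ φ : K i →+* ℂ, (ρ f ^ m) v = φ (π i) • v) ∨
      ∃ μ ∈ S, (ρ f ^ m) v = μ • v} = ⊤)
    (k : ℕ) :
    ∃ Λ : ℂ → ℂ, (∀ s, MeromorphicAt Λ s) ∧
      (∀ s : ℂ, (k : ℝ) + 1 + 1 / 2 < s.re →
        HasProd (fun v : orbitRel.Quotient Γ Pt =>
          (LinearMap.det (1 - (((p : ℂ) ^ a) ^ (-s)) ^ ptDeg deg v.out •
            frobOp deg v.out (fun g => exteriorPower.map (2 * k + 1) (ρ g))))⁻¹) (Λ s)) ∧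
      meromorphicOrderAt Λ ((k : ℂ) + 1) =
        ((finrank ℂ (invariantClasses deg ρ σ f ((p : ℂ) ^ a) k) : ℤ) : WithTop ℤ) := by
  classical
  have hp1 : (1 : ℝ) < p := by exact_mod_cast (Fact.out : p.Prime).one_lt
  have hq : (1 : ℝ) < (p : ℝ) ^ a := one_lt_pow₀ hp1 ha.ne'
  have hq0 : (0 : ℝ) < (p : ℝ) ^ a := by linarith
  have hcast : (((p : ℝ) ^ a : ℝ) : ℂ) = (p : ℂ) ^ a := by push_cast; rfl
  have hqc : ((p : ℂ) ^ a) ≠ 0 := by
    rw [← hcast]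
    exact_mod_cast hq0.ne'
  have ham : 0 < a * m := Nat.mul_pos ha hm
  -- the weights of `ρ f`
  have hρ1 : Submodule.span ℂ {v : V | ∃ α : ℂ, ‖α‖ ^ 2 = (p : ℝ) ^ a ∧ ρ f v = α • v} = ⊤ := by
    refine span_root (ρ f) m hm _ hq0 ?_
    rw [eq_top_iff, ← hρ]
    refine Submodule.span_mono ?_
    rintro v (⟨i, φ, hv⟩ | ⟨μ, hμ, hv⟩)
    · exact ⟨φ (π i), by rw [hweil i φ, pow_mul], hv⟩
    · refine ⟨μ, ?_, hv⟩
      obtain ⟨N, hN, h1⟩ := hS μ hμ
      have h2 := congrArg norm h1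
      rw [norm_pow, norm_pow, norm_pow, Complex.norm_natCast, pow_mul] at h2
      rw [← pow_mul]
      exact (pow_left_inj₀ (by positivity) (by positivity) hN.ne').1 h2
  have hσ1 : Submodule.span ℂ {w : W | ∃ α : ℂ, ‖α‖ ^ 2 = (p : ℝ) ^ a ∧ σ f w = α • w} = ⊤ := by
    rw [eq_top_iff, ← hσ]
    refine Submodule.span_mono ?_
    rintro w ⟨α, hα, hw⟩
    exact ⟨α, hα.2, hw⟩
  obtain ⟨r', b', α', hα', hb'⟩ := exists_eigenbasis_ext (ρ f) _ hρ1 (2 * k + 1)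
  have hext : Submodule.span ℂ {w : ⋀[ℂ]^(2 * k + 1) V | ∃ α : ℂ,
      ‖α‖ ^ 2 = ((p : ℝ) ^ a) ^ (2 * k + 1) ∧ extRep ρ (2 * k + 1) f w = α • w} = ⊤ :=
    span_of_basis _ b' α' hb' _ hα'
  have hfix' : ∀ g : Γ, 0 < deg g → {x : Pt | g • x = x}.Finite ∧
      ({x : Pt | g • x = x}.ncard : ℂ) =
        1 + (((p : ℝ) ^ a : ℝ) : ℂ) ^ deg g - LinearMap.trace ℂ W (σ g) := by
    intro g hg
    rw [hcast]
    exact hfix g hg
  obtain ⟨A, r₀, γ, hA, hex, hprod⟩ := euler_rep hdeg hker hf hPt ((p : ℝ) ^ a) hq σ hσ1 hfix'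
    (2 * k + 1) (extRep ρ (2 * k + 1)) hext
  obtain ⟨hmer, hord⟩ := order_quot ((p : ℝ) ^ a) hq k A γ hA
  refine ⟨_, hmer, ?_, ?_⟩
  · intro s hs
    have h1 := hprod s (by push_cast; linarith)
    simp only [hcast] at h1 ⊢
    simp only [frobOp_eq]
    exact h1
  · have h3 : (((k + 1 : ℕ) : ℕ) : ℂ) = (k : ℂ) + 1 := by push_cast; rfl
    rw [h3] at hord
    rw [hord, hcast]
    obtain ⟨T, hT, hfr⟩ := hex (((p : ℂ) ^ a) ^ (k + 1)) (pow_ne_zero _ hqc)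
    have hG : Submodule.span ℂ {w : W | ∃ μ ∈ {μ : ℂ | IsIntegral ℤ μ ∧
        ‖μ‖ ^ 2 = (p : ℝ) ^ (a * m)}, (σ f ^ m) w = μ • w} = ⊤ := by
      rw [eq_top_iff, ← hσ]
      refine Submodule.span_mono ?_
      rintro w ⟨α, hα, hw⟩
      refine ⟨α ^ m, ⟨hα.1.pow m, ?_⟩, pow_apply_eigen _ _ _ hw m⟩
      rw [norm_pow, ← pow_mul, mul_comm, pow_mul, hα.2, pow_mul]
    have heq := invariantClasses_eq hdeg hf ρ σ ((p : ℂ) ^ a) m hm k
      {μ : ℂ | IsIntegral ℤ μ ∧ ‖μ‖ ^ 2 = (p : ℝ) ^ (a * m)} (by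
        rintro μ ⟨_, h4⟩ rfl
        rw [norm_zero] at h4
        have : (0 : ℝ) < (p : ℝ) ^ (a * m) := by positivity
        norm_num at h4
        linarith) hG (by
        intro μ hμ x hx hFx
        have hμ0 : μ ≠ 0 := by
          rintro rfl
          have h4 := hμ.2
          rw [norm_zero] at h4
          have : (0 : ℝ) < (p : ℝ) ^ (a * m) := by positivity
          norm_num at h4
          linarith
        have h5 := eigenclass_mem p (a * m) ham π hweil hflip hspread S hS hSspread (ρ f ^ m) hρ μ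
          hμ.1 hμ.2 k 1 one_pos (((p : ℂ) ^ (a * m)) ^ (k + 1) / μ) (by
            rw [pow_one, pow_one, div_mul_cancel₀ _ hμ0]) x hx (by
            rw [pow_one, hFx, pow_mul (p : ℂ) a m])
        rw [← pow_mul]
        exact h5) T hT
    rw [heq, ← hfr]
    have h5 : finrank ℂ (T.map (incl V W (2 * k + 1))) = finrank ℂ T :=
      (LinearEquiv.finrank_eq (Submodule.equivMapOfInjective _ (incl_injective _) _)).symm
    rw [h5]

end Pool.Agent.Y145.Iso
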