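import Pool.Agent.Y145.Iso.Defs

/-!
# Groups with a degree, decomposition groups and averages
-/

set_option autoImplicit false
set_option linter.unusedSectionVars false

namespace Pool.Agent.Y145.Iso

open Module

section Degree

variable {Γ : Type*} [Group Γ] {deg : Γ → ℤ} (hdeg : ∀ g h, deg (g * h) = deg g + deg h)

include hdeg

theorem deg_one : deg 1 = 0 := by
  have h := hdeg 1 1
  rw [mul_one] at h
  omega

theorem deg_inv (g : Γ) : deg g⁻¹ = -deg g := by
  have h := hdeg g g⁻¹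
  rw [mul_inv_cancel, deg_one hdeg] at h
  omega

theorem deg_pow (g : Γ) (n : ℕ) : deg (g ^ n) = n * deg g := by
  induction n with
  | zero => rw [pow_zero, deg_one hdeg]; simp
  | succ n ih => rw [pow_succ, hdeg, ih]; push_cast; ring

theorem deg_zpow (g : Γ) (n : ℤ) : deg (g ^ n) = n * deg g := by
  cases n with
  | ofNat n => rw [Int.ofNat_eq_natCast, zpow_natCast, deg_pow hdeg]
  | negSucc n =>
    rw [zpow_negSucc, deg_inv hdeg, deg_pow hdeg, Int.negSucc_eq]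
    push_cast
    ring

/-- The elements of degree `n` of a subgroup. -/
def lev (deg : Γ → ℤ) (D : Subgroup Γ) (n : ℤ) : Set Γ := {g | g ∈ D ∧ deg g = n}

omit hdeg in
theorem mem_lev {D : Subgroup Γ} {n : ℤ} {g : Γ} : g ∈ lev deg D n ↔ g ∈ D ∧ deg g = n := Iff.rfl

theorem lev_finite (hker : {g | deg g = 0}.Finite) (D : Subgroup Γ) (n : ℤ) :
    (lev deg D n).Finite := by
  rcases (lev deg D n).eq_empty_or_nonempty with h | ⟨g₀, hg₀⟩
  · rw [h]
    exact Set.finite_empty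
  · have h1 : lev deg D n ⊆ (fun h => g₀ * h) '' {g | deg g = 0} := by
      intro g hg
      refine ⟨g₀⁻¹ * g, ?_, by simp⟩
      change deg _ = 0
      rw [hdeg, deg_inv hdeg, hg.2, hg₀.2]
      ring
    exact (hker.image _).subset h1

/-- Multiplication by an element of the subgroup is a bijection of levels. -/
theorem lev_mul_bij {D : Subgroup Γ} {m n : ℤ} {g₀ : Γ} (hg₀ : g₀ ∈ lev deg D m) :
    Set.BijOn (fun g => g₀ * g) (lev deg D n) (lev deg D (m + n)) := by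
  refine ⟨?_, ?_, ?_⟩
  · intro g hg
    exact ⟨D.mul_mem hg₀.1 hg.1, by rw [hdeg, hg₀.2, hg.2]⟩
  · intro g _ h _ hgh
    exact mul_left_cancel hgh
  · intro g hg
    refine ⟨g₀⁻¹ * g, ⟨D.mul_mem (D.inv_mem hg₀.1) hg.1, ?_⟩, by simp⟩
    rw [hdeg, deg_inv hdeg, hg₀.2, hg.2]
    ring

theorem lev_ncard {D : Subgroup Γ} {m n : ℤ} {g₀ : Γ} (hg₀ : g₀ ∈ lev deg D m) :
    (lev deg D (m + n)).ncard = (lev deg D n).ncard := by
  have h := lev_mul_bij hdeg (n := n) hg₀
  rw [← h.image_eq]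
  exact h.injOn.ncard_image

theorem lev_zero_pos (hker : {g | deg g = 0}.Finite) (D : Subgroup Γ) :
    0 < (lev deg D 0).ncard := by
  rw [Set.ncard_pos (lev_finite hdeg hker D 0)]
  exact ⟨1, D.one_mem, deg_one hdeg⟩

theorem lev_mul_ncard {D : Subgroup Γ} {d : ℕ} {φ : Γ} (hφ : φ ∈ lev deg D d) (n : ℕ) :
    (lev deg D ((n * d : ℕ) : ℤ)).ncard = (lev deg D 0).ncard := by
  have h : φ ^ n ∈ lev deg D ((n * d : ℕ) : ℤ) :=
    ⟨D.pow_mem hφ.1 n, by rw [deg_pow hdeg, hφ.2]; push_cast; ring⟩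
  have := lev_ncard hdeg (n := 0) h
  rwa [add_zero] at this

end Degree

section Average

variable {Γ : Type*} [Group Γ] {deg : Γ → ℤ} (hdeg : ∀ g h, deg (g * h) = deg g + deg h)
variable {A : Type*} [Ring A] [Algebra ℂ A]

/-- The average of a function on a set. -/
noncomputable def avg (S : Set Γ) (ρ : Γ → A) : A := (S.ncard : ℂ)⁻¹ • ∑ᶠ g ∈ S, ρ g

theorem avg_mul_avg {D : Subgroup Γ} (hker : {g | deg g = 0}.Finite) (ρ : Γ →* A) {m n : ℤ}
    (hm : (lev deg D m).Nonempty) (hdeg : ∀ g h, deg (g * h) = deg g + deg h) :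
    avg (lev deg D m) ρ * avg (lev deg D n) ρ = avg (lev deg D (m + n)) ρ := by
  classical
  have hfin := lev_finite hdeg hker D
  obtain ⟨g₀, hg₀⟩ := hm
  unfold avg
  rw [finsum_mem_eq_finite_toFinset_sum _ (hfin m), finsum_mem_eq_finite_toFinset_sum _ (hfin n),
    finsum_mem_eq_finite_toFinset_sum _ (hfin (m + n)), smul_mul_smul_comm, Finset.sum_mul_sum]
  have h1 : ∀ g ∈ (hfin m).toFinset, ∑ h ∈ (hfin n).toFinset, ρ g * ρ h =
      ∑ h ∈ (hfin (m + n)).toFinset, ρ h := by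
    intro g hg
    rw [Set.Finite.mem_toFinset] at hg
    have hb := lev_mul_bij hdeg (n := n) hg
    refine Finset.sum_nbij (fun h => g * h) ?_ ?_ ?_ ?_
    · intro h hh
      rw [Set.Finite.mem_toFinset] at hh ⊢
      exact hb.mapsTo hh
    · intro h _ h' _ hhh
      exact mul_left_cancel hhh
    · intro h hh
      rw [Set.Finite.coe_toFinset] at hh ⊢
      exact hb.surjOn hh
    · intro h _
      exact (map_mul ρ g h).symm
  rw [Finset.sum_congr rfl h1, Finset.sum_const, ← Set.ncard_eq_toFinset_card _ (hfin m)]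
  have h2 : ((lev deg D m).ncard : ℂ) ≠ 0 := by
    have : 0 < (lev deg D m).ncard := (Set.ncard_pos (hfin m)).2 ⟨g₀, hg₀⟩
    exact_mod_cast this.ne'
  rw [lev_ncard hdeg (n := n) hg₀, ← Nat.cast_smul_eq_nsmul ℂ, smul_smul]
  congr 1
  field_simp

include hdeg

theorem avg_pow {D : Subgroup Γ} (hker : {g | deg g = 0}.Finite) (ρ : Γ →* A) {d : ℕ} {φ : Γ}
    (hφ : φ ∈ lev deg D d) (n : ℕ) (hn : 0 < n) :
    avg (lev deg D d) ρ ^ n = avg (lev deg D ((n * d : ℕ) : ℤ)) ρ := by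
  induction n with
  | zero => omega
  | succ n ih =>
    rcases Nat.eq_zero_or_pos n with rfl | h0
    · simp
    · rw [pow_succ, ih h0, avg_mul_avg hker ρ ?_ hdeg]
      · congr 2
        push_cast
        ring
      · exact ⟨φ ^ n, D.pow_mem hφ.1 n, by rw [deg_pow hdeg, hφ.2]; push_cast; ring⟩

/-- The average is the product of the Frobenius and the projector. -/
theorem avg_eq_mul {D : Subgroup Γ} (hker : {g | deg g = 0}.Finite) (ρ : Γ →* A) {m : ℤ} {g₀ : Γ}
    (hg₀ : g₀ ∈ lev deg D m) :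
    avg (lev deg D m) ρ = ρ g₀ * avg (lev deg D 0) ρ := by
  classical
  have hfin := lev_finite hdeg hker D
  have h0 := lev_ncard hdeg (n := 0) hg₀
  rw [add_zero] at h0
  unfold avg
  rw [h0, finsum_mem_eq_finite_toFinset_sum _ (hfin m),
    finsum_mem_eq_finite_toFinset_sum _ (hfin 0), mul_smul_comm, Finset.mul_sum]
  congr 1
  have hb := lev_mul_bij hdeg (n := 0) hg₀
  rw [add_zero] at hb
  symm
  refine Finset.sum_nbij (fun h => g₀ * h) ?_ ?_ ?_ ?_
  · intro h hh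
    rw [Set.Finite.mem_toFinset] at hh ⊢
    exact hb.mapsTo hh
  · intro h _ h' _ hhh
    exact mul_left_cancel hhh
  · intro h hh
    rw [Set.Finite.coe_toFinset] at hh ⊢
    exact hb.surjOn hh
  · intro h _
    exact (map_mul ρ g₀ h).symm

/-- Inertia elements fix the average. -/
theorem mul_avg {D : Subgroup Γ} (hker : {g | deg g = 0}.Finite) (ρ : Γ →* A) {m : ℤ} {h : Γ}
    (hh : h ∈ lev deg D 0) : ρ h * avg (lev deg D m) ρ = avg (lev deg D m) ρ := by
  classical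
  have hfin := lev_finite hdeg hker D
  unfold avg
  rw [finsum_mem_eq_finite_toFinset_sum _ (hfin m), mul_smul_comm, Finset.mul_sum]
  congr 1
  have hb := lev_mul_bij hdeg (n := m) hh
  rw [zero_add] at hb
  refine Finset.sum_nbij (fun g => h * g) ?_ ?_ ?_ ?_
  · intro g hg
    rw [Set.Finite.mem_toFinset] at hg ⊢
    exact hb.mapsTo hg
  · intro g _ g' _ hgg
    exact mul_left_cancel hgg
  · intro g hg
    rw [Set.Finite.coe_toFinset] at hg ⊢
    exact hb.surjOn hg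
  · intro g _
    exact (map_mul ρ h g).symm

/-- The average commutes with the Frobenius. -/
theorem avg_comm {D : Subgroup Γ} (hker : {g | deg g = 0}.Finite) (ρ : Γ →* A) {m n : ℤ} {g₀ : Γ}
    (hg₀ : g₀ ∈ lev deg D m) :
    ρ g₀ * avg (lev deg D n) ρ = avg (lev deg D n) ρ * ρ g₀ := by
  classical
  have hfin := lev_finite hdeg hker D
  unfold avg
  rw [finsum_mem_eq_finite_toFinset_sum _ (hfin n), mul_smul_comm, smul_mul_assoc, Finset.mul_sum,
    Finset.sum_mul]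
  congr 1
  refine Finset.sum_nbij (fun g => g₀ * g * g₀⁻¹) ?_ ?_ ?_ ?_
  · intro g hg
    rw [Set.Finite.mem_toFinset] at hg ⊢
    refine ⟨D.mul_mem (D.mul_mem hg₀.1 hg.1) (D.inv_mem hg₀.1), ?_⟩
    rw [hdeg, hdeg, deg_inv hdeg, hg.2]
    ring
  · intro g _ g' _ hgg
    exact mul_left_cancel (mul_right_cancel hgg)
  · intro g hg
    rw [Set.Finite.coe_toFinset] at hg ⊢
    refine ⟨g₀⁻¹ * g * g₀, ⟨D.mul_mem (D.mul_mem (D.inv_mem hg₀.1) hg.1) hg₀.1, ?_⟩, ?_⟩
    · rw [hdeg, hdeg, deg_inv hdeg, hg.2]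
      ring
    · group
  · intro g _
    rw [← map_mul, ← map_mul]
    congr 1
    group

end Average

section Points

variable {Γ : Type*} [Group Γ] {deg : Γ → ℤ} {Pt : Type*} [MulAction Γ Pt]

variable (hdeg : ∀ g h, deg (g * h) = deg g + deg h)
  (hPt : ∀ x : Pt, ∃ g : Γ, g • x = x ∧ 0 < deg g)

include hdeg hPt

omit hdeg in
theorem ptDeg_spec (x : Pt) :
    0 < ptDeg deg x ∧ ∃ g : Γ, g • x = x ∧ deg g = ptDeg deg x := by
  have h : {d : ℕ | 0 < d ∧ ∃ g : Γ, g • x = x ∧ deg g = d}.Nonempty := by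
    obtain ⟨g, h1, h2⟩ := hPt x
    exact ⟨(deg g).toNat, by omega, g, h1, by omega⟩
  exact Nat.sInf_mem h

omit hdeg in
theorem ptDeg_pos (x : Pt) : 0 < ptDeg deg x := (ptDeg_spec hPt x).1

omit hdeg in
theorem exists_frob (x : Pt) :
    ∃ φ : Γ, φ ∈ lev deg (MulAction.stabilizer Γ x) (ptDeg deg x : ℤ) := by
  obtain ⟨φ, h1, h2⟩ := (ptDeg_spec hPt x).2
  exact ⟨φ, h1, h2⟩

theorem ptDeg_dvd (x : Pt) (g : Γ) (hg : g • x = x) : (ptDeg deg x : ℤ) ∣ deg g := by
  obtain ⟨φ, hφ1, hφ2⟩ := exists_frob hPt x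
  have hpos := ptDeg_pos hPt x
  have hmin : ∀ e : ℕ, 0 < e → (∃ g : Γ, g • x = x ∧ deg g = e) → ptDeg deg x ≤ e :=
    fun e h1 h2 => Nat.sInf_le ⟨h1, h2⟩
  generalize ptDeg deg x = d at *
  by_contra hno
  have h1 : g * φ ^ (-(deg g / d)) ∈ MulAction.stabilizer Γ x :=
    Subgroup.mul_mem _ hg (Subgroup.zpow_mem _ hφ1 _)
  have h2 : deg (g * φ ^ (-(deg g / d))) = deg g % d := by
    rw [hdeg, deg_zpow hdeg, hφ2]
    have := Int.emod_add_mul_ediv (deg g) d
    linarith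
  have h3 : 0 < deg g % d := by
    have h4 := Int.emod_nonneg (deg g) (by omega : (d : ℤ) ≠ 0)
    rcases h4.lt_or_eq with h5 | h5
    · exact h5
    · exact absurd (Int.dvd_of_emod_eq_zero h5.symm) hno
  have h4 : deg g % d < d := Int.emod_lt_of_pos _ (by omega)
  have h5 : d ≤ (deg g % d).toNat := by
    refine hmin _ (by omega) ⟨_, h1, ?_⟩
    rw [h2]
    omega
  omega

theorem lev_nonempty_iff (x : Pt) (m : ℕ) (hm : 0 < m) :
    (lev deg (MulAction.stabilizer Γ x) (m : ℤ)).Nonempty ↔ ptDeg deg x ∣ m := by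
  constructor
  · rintro ⟨g, hg1, hg2⟩
    have := ptDeg_dvd hdeg hPt x g hg1
    rw [hg2] at this
    exact_mod_cast this
  · rintro ⟨c, rfl⟩
    obtain ⟨φ, hφ1, hφ2⟩ := exists_frob hPt x
    exact ⟨φ ^ c, Subgroup.pow_mem _ hφ1 _, by rw [deg_pow hdeg, hφ2]; push_cast; ring⟩

end Points

end Pool.Agent.Y145.Iso
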