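import Pool.Agent.Y145.Iso.Diag
import Pool.Agent.Y145.Iso.Euler
import Pool.Agent.W484.BB.Main

/-!
# The L-function of a representation of the Weil group of a covering of a curve
-/

set_option autoImplicit false
set_option linter.unusedSectionVars false
set_option linter.style.haveILetI false

namespace Pool.Agent.Y145.Iso

open Module MulAction TensorProduct Pool.Agent.W484.BB

section Trace

variable {Γ : Type*} [Group Γ] {deg : Γ → ℤ}
variable {U : Type*} [AddCommGroup U] [Module ℂ U]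

theorem trace_conj (ρ : Representation ℂ Γ U) (g h : Γ) :
    LinearMap.trace ℂ U (ρ (h * g * h⁻¹)) = LinearMap.trace ℂ U (ρ g) := by
  rw [map_mul, LinearMap.trace_mul_comm, ← map_mul]
  congr 2
  group

theorem trace_avg (hdeg : ∀ g h, deg (g * h) = deg g + deg h)
    (hker : {g | deg g = 0}.Finite) (ρ : Representation ℂ Γ U) (D : Subgroup Γ) (m : ℤ) :
    LinearMap.trace ℂ U (avg (lev deg D m) ρ) =
      ((lev deg D m).ncard : ℂ)⁻¹ * ∑ᶠ g ∈ lev deg D m, LinearMap.trace ℂ U (ρ g) := by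
  classical
  unfold avg
  rw [finsum_mem_eq_finite_toFinset_sum _ (lev_finite hdeg hker D m),
    finsum_mem_eq_finite_toFinset_sum _ (lev_finite hdeg hker D m), map_smul, smul_eq_mul,
    map_sum]

theorem exists_eigenbasis' [FiniteDimensional ℂ U]
    (T : U →ₗ[ℂ] U) (E : Set ℂ) (h : Submodule.span ℂ {u : U | ∃ α ∈ E, T u = α • u} = ⊤) :
    ∃ (b : Basis (Fin (finrank ℂ U)) ℂ U) (α : Fin (finrank ℂ U) → ℂ), (∀ j, α j ∈ E) ∧
      ∀ j, T (b j) = α j • b j := by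
  obtain ⟨r, b, α, h1, h2⟩ := exists_eigenbasis T E h
  have hr : r = finrank ℂ U := by
    rw [finrank_eq_card_basis b, Fintype.card_fin]
  subst hr
  exact ⟨b, α, h1, h2⟩

end Trace

/-- The eigenvectors of a root. -/
theorem span_root {V : Type*} [AddCommGroup V] [Module ℂ V] (F : V →ₗ[ℂ] V) (m : ℕ) (hm : 0 < m)
    (q : ℝ) (hq : 0 < q)
    (h : Submodule.span ℂ {v : V | ∃ α : ℂ, ‖α‖ ^ 2 = q ^ m ∧ (F ^ m) v = α • v} = ⊤) :
    Submodule.span ℂ {v : V | ∃ α : ℂ, ‖α‖ ^ 2 = q ∧ F v = α • v} = ⊤ := by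
  rw [eq_top_iff, ← h]
  refine Submodule.span_le.2 ?_
  rintro v ⟨α, hα, hv⟩
  have hα0 : α ≠ 0 := by
    rintro rfl
    rw [norm_zero] at hα
    have : 0 < q ^ m := pow_pos hq m
    norm_num at hα
    linarith
  refine Submodule.span_mono ?_ (mem_span_of_pow F v m hm α hα0 hv)
  rintro w ⟨τ, hτ, hw⟩
  refine ⟨τ, ?_, hw⟩
  have h5 := congrArg norm hτ
  rw [norm_pow] at h5
  rw [← h5, ← pow_mul, mul_comm, pow_mul] at hα
  exact (pow_left_inj₀ (by positivity) hq.le hm.ne').1 hα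

/-- The exterior powers of a representation. -/
noncomputable def extRep {Γ : Type*} [Group Γ] {V : Type*} [AddCommGroup V] [Module ℂ V]
    (ρ : Representation ℂ Γ V) (n : ℕ) : Representation ℂ Γ (⋀[ℂ]^n V) where
  toFun g := exteriorPower.map n (ρ g)
  map_one' := by
    rw [map_one]
    exact exteriorPower.map_id
  map_mul' g h := by
    rw [map_mul]
    exact (exteriorPower.map_comp (n := n) (ρ h) (ρ g))

theorem extRep_apply {Γ : Type*} [Group Γ] {V : Type*} [AddCommGroup V] [Module ℂ V]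
    (ρ : Representation ℂ Γ V) (n : ℕ) (g : Γ) : extRep ρ n g = exteriorPower.map n (ρ g) := rfl

theorem span_of_basis {U : Type*} [AddCommGroup U] [Module ℂ U] (T : U →ₗ[ℂ] U) {J : Type*}
    (b : Basis J ℂ U) (α : J → ℂ) (hb : ∀ j, T (b j) = α j • b j) (B : ℝ)
    (hα : ∀ j, ‖α j‖ ^ 2 = B) :
    Submodule.span ℂ {v : U | ∃ α : ℂ, ‖α‖ ^ 2 = B ∧ T v = α • v} = ⊤ := by
  rw [eq_top_iff, ← b.span_eq]
  refine Submodule.span_mono ?_
  rintro _ ⟨j, rfl⟩
  exact ⟨α j, hα j, hb j⟩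

section Sums

variable {Γ : Type*} [Group Γ] {deg : Γ → ℤ} {U : Type*} [AddCommGroup U] [Module ℂ U]

theorem sum_pow_eq (hdeg : ∀ g h, deg (g * h) = deg g + deg h) (hker : {g | deg g = 0}.Finite)
    {f : Γ} (hf : deg f = 1) (τ : Representation ℂ Γ U) {r : ℕ} (b : Basis (Fin r) ℂ U)
    (a : Fin r → ℂ)
    (hb : ∀ l, avg (lev deg (⊤ : Subgroup Γ) 1) τ (b l) = a l • b l) (m : ℕ) (hm : 0 < m) :
    ∑ l, a l ^ m = ((lev deg (⊤ : Subgroup Γ) 0).ncard : ℂ)⁻¹ *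
      ∑ᶠ g ∈ lev deg (⊤ : Subgroup Γ) (m : ℤ), LinearMap.trace ℂ U (τ g) := by
  have hfT : f ∈ lev deg (⊤ : Subgroup Γ) ((1 : ℕ) : ℤ) := ⟨Subgroup.mem_top _, by simpa using hf⟩
  rw [← trace_pow _ b a hb]
  have h1 := avg_pow hdeg hker τ hfT m hm
  rw [Nat.cast_one, mul_one] at h1
  have h2 := lev_mul_ncard hdeg hfT m
  rw [mul_one] at h2
  rw [h1, trace_avg hdeg hker, h2]

end Sums

section Tate

variable {Γ : Type*} [Group Γ] {deg : Γ → ℤ} {U : Type*} [AddCommGroup U] [Module ℂ U]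

/-- The eigenspace of the global average. -/
theorem mem_avg_eigen (hdeg : ∀ g h, deg (g * h) = deg g + deg h)
    (hker : {g | deg g = 0}.Finite) {f : Γ} (hf : deg f = 1) (τ : Representation ℂ Γ U) (μ : ℂ)
    (hμ : μ ≠ 0) (u : U) :
    avg (lev deg (⊤ : Subgroup Γ) 1) τ u = μ • u ↔ ∀ g, τ g u = (μ ^ deg g) • u := by
  classical
  constructor
  · intro h
    have hfT : f ∈ lev deg (⊤ : Subgroup Γ) 1 := ⟨Subgroup.mem_top _, hf⟩
    have hH : ∀ g, deg g = 0 → τ g u = u := by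
      intro g hg
      have h1 : τ g * avg (lev deg (⊤ : Subgroup Γ) 1) τ = avg (lev deg (⊤ : Subgroup Γ) 1) τ :=
        mul_avg hdeg hker τ ⟨Subgroup.mem_top _, hg⟩
      have h2 := LinearMap.congr_fun h1 u
      rw [Module.End.mul_apply, h, map_smul] at h2
      have h3 := congrArg (fun x => μ⁻¹ • x) h2
      simp only [smul_smul, inv_mul_cancel₀ hμ, one_smul] at h3
      exact h3
    have he : avg (lev deg (⊤ : Subgroup Γ) 0) τ u = u := by
      unfold avg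
      rw [finsum_mem_eq_finite_toFinset_sum _ (lev_finite hdeg hker ⊤ 0), LinearMap.smul_apply,
        LinearMap.sum_apply, Finset.sum_congr rfl fun g hg => hH g ?_, Finset.sum_const,
        ← Set.ncard_eq_toFinset_card _ (lev_finite hdeg hker ⊤ 0), ← Nat.cast_smul_eq_nsmul ℂ,
        smul_smul, inv_mul_cancel₀, one_smul]
      · exact_mod_cast (lev_zero_pos hdeg hker _).ne'
      · rw [Set.Finite.mem_toFinset] at hg
        exact hg.2
    have hfu : τ f u = μ • u := by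
      have h1 : avg (lev deg (⊤ : Subgroup Γ) 1) τ = τ f * avg (lev deg (⊤ : Subgroup Γ) 0) τ :=
        avg_eq_mul hdeg hker τ hfT
      rw [h1, Module.End.mul_apply, he] at h
      exact h
    have hfi : τ f⁻¹ u = μ⁻¹ • u := by
      have h1 : τ f⁻¹ (τ f u) = u := by
        rw [← Module.End.mul_apply, ← map_mul, inv_mul_cancel, map_one, Module.End.one_apply]
      rw [hfu, map_smul] at h1
      have h3 := congrArg (fun x => μ⁻¹ • x) h1
      simp only [smul_smul, inv_mul_cancel₀ hμ, one_smul] at h3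
      exact h3
    have hpow : ∀ n : ℕ, τ (f ^ n) u = (μ ^ n) • u := by
      intro n
      rw [map_pow]
      exact pow_apply_eigen _ _ _ hfu n
    have hpowi : ∀ n : ℕ, τ (f⁻¹ ^ n) u = (μ⁻¹ ^ n) • u := by
      intro n
      rw [map_pow]
      exact pow_apply_eigen _ _ _ hfi n
    have hz : ∀ n : ℤ, τ (f ^ n) u = (μ ^ n) • u := by
      intro n
      cases n with
      | ofNat n => rw [Int.ofNat_eq_natCast, zpow_natCast, zpow_natCast, hpow]
      | negSucc n => rw [zpow_negSucc, zpow_negSucc, ← inv_pow, ← inv_pow, hpowi]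
    intro g
    have hg : g = f ^ deg g * ((f ^ deg g)⁻¹ * g) := by group
    have h0 : deg ((f ^ deg g)⁻¹ * g) = 0 := by
      rw [hdeg, deg_inv hdeg, deg_zpow hdeg, hf]
      ring
    calc τ g u = τ (f ^ deg g * ((f ^ deg g)⁻¹ * g)) u := by rw [← hg]
      _ = τ (f ^ deg g) (τ ((f ^ deg g)⁻¹ * g) u) := by rw [map_mul, Module.End.mul_apply]
      _ = (μ ^ deg g) • u := by rw [hH _ h0, hz]
  · intro h
    have hfT : f ∈ lev deg (⊤ : Subgroup Γ) 1 := ⟨Subgroup.mem_top _, hf⟩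
    unfold avg
    have h1 : ∀ g ∈ (lev_finite hdeg hker (⊤ : Subgroup Γ) 1).toFinset, τ g u = μ • u := by
      intro g hg
      rw [Set.Finite.mem_toFinset] at hg
      rw [h g, hg.2, zpow_one]
    rw [finsum_mem_eq_finite_toFinset_sum _ (lev_finite hdeg hker ⊤ 1), LinearMap.smul_apply,
      LinearMap.sum_apply, Finset.sum_congr rfl h1, Finset.sum_const,
      ← Set.ncard_eq_toFinset_card _ (lev_finite hdeg hker ⊤ 1), ← Nat.cast_smul_eq_nsmul ℂ,
      smul_smul, inv_mul_cancel₀, one_smul]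
    have : 0 < (lev deg (⊤ : Subgroup Γ) 1).ncard :=
      (Set.ncard_pos (lev_finite hdeg hker ⊤ 1)).2 ⟨f, hfT⟩
    exact_mod_cast this.ne'

theorem exists_tate (hdeg : ∀ g h, deg (g * h) = deg g + deg h)
    (hker : {g | deg g = 0}.Finite) {f : Γ} (hf : deg f = 1) (τ : Representation ℂ Γ U) {r : ℕ}
    (b : Basis (Fin r) ℂ U) (γ : Fin r → ℂ)
    (hb : ∀ l, avg (lev deg (⊤ : Subgroup Γ) 1) τ (b l) = γ l • b l) (μ : ℂ) (hμ : μ ≠ 0) :
    ∃ T : Submodule ℂ U, (∀ u, u ∈ T ↔ ∀ g, τ g u = (μ ^ deg g) • u) ∧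
      finrank ℂ T = Nat.card {l // γ l = μ} := by
  refine ⟨LinearMap.eqLocus (avg (lev deg (⊤ : Subgroup Γ) 1) τ : Module.End ℂ U)
    (μ • LinearMap.id), fun u => ?_, finrank_eigenspace _ b γ hb μ⟩
  rw [mem_eqLocus_smul]
  exact mem_avg_eigen hdeg hker hf τ μ hμ u

end Tate

section LFun

variable {Γ : Type*} [Group Γ] {deg : Γ → ℤ} {Pt : Type*} [MulAction Γ Pt]
variable {U : Type*} [AddCommGroup U] [Module ℂ U] [FiniteDimensional ℂ U]
variable {W : Type*} [AddCommGroup W] [Module ℂ W] [FiniteDimensional ℂ W]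

/-- **The Euler product of a representation.** -/
theorem euler_rep (hdeg : ∀ g h, deg (g * h) = deg g + deg h) (hker : {g | deg g = 0}.Finite)
    {f : Γ} (hf : deg f = 1) (hPt : ∀ x : Pt, ∃ g : Γ, g • x = x ∧ 0 < deg g)
    (q : ℝ) (hq : 1 < q) (σ : Representation ℂ Γ W)
    (hσ : Submodule.span ℂ {w : W | ∃ α : ℂ, ‖α‖ ^ 2 = q ∧ σ f w = α • w} = ⊤)
    (hfix : ∀ g : Γ, 0 < deg g → {x : Pt | g • x = x}.Finite ∧
      ({x : Pt | g • x = x}.ncard : ℂ) = 1 + (q : ℂ) ^ deg g - LinearMap.trace ℂ W (σ g))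
    (n : ℕ) (ρ : Representation ℂ Γ U)
    (hρ : Submodule.span ℂ {w : U | ∃ α : ℂ, ‖α‖ ^ 2 = q ^ n ∧ ρ f w = α • w} = ⊤) :
    ∃ (a : Fin (finrank ℂ U) → ℂ) (r : ℕ) (γ : Fin r → ℂ),
      (∀ l, a l = 0 ∨ ‖a l‖ ^ 2 = q ^ n) ∧
      (∀ μ : ℂ, μ ≠ 0 → ∃ T : Submodule ℂ (U ⊗[ℂ] W),
        (∀ u, u ∈ T ↔ ∀ g, Representation.tprod ρ σ g u = (μ ^ deg g) • u) ∧
        finrank ℂ T = Nat.card {l // γ l = μ}) ∧
      ∀ s : ℂ, (n : ℝ) / 2 + 1 < s.re →
        HasProd (fun v : orbitRel.Quotient Γ Pt =>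
          (LinearMap.det (1 - ((q : ℂ) ^ (-s)) ^ ptDeg deg v.out •
            avg (lev deg (stabilizer Γ v.out) (ptDeg deg v.out : ℤ)) ρ))⁻¹)
          ((∏ l, fac q (γ l) s) / ∏ j : Fin (finrank ℂ U) ⊕ Fin (finrank ℂ U),
            fac q (Sum.elim a (fun l => (q : ℂ) * a l) j) s) := by
  classical
  have hq0 : 0 < q := by linarith
  have hfT : f ∈ lev deg (⊤ : Subgroup Γ) ((1 : ℕ) : ℤ) := ⟨Subgroup.mem_top _, by simpa using hf⟩
  have hfin : ∀ g : Γ, 0 < deg g → {x : Pt | g • x = x}.Finite := fun g hg => (hfix g hg).1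
  -- the global averages
  obtain ⟨ba, a, ha, hba⟩ := exists_eigenbasis' _ _
    (avg_diag hdeg hker hf ρ ⊤ 1 hfT (q ^ n) (pow_pos hq0 n) hρ)
  obtain ⟨bw, w, hw, hbw⟩ := exists_eigenbasis' _ _
    (avg_diag hdeg hker hf σ ⊤ 1 hfT q hq0 hσ)
  have htens : Submodule.span ℂ {w : U ⊗[ℂ] W | ∃ α : ℂ, ‖α‖ ^ 2 = q ^ (n + 1) ∧
      (Representation.tprod ρ σ) f w = α • w} = ⊤ := by
    obtain ⟨b1, α1, h1, hb1⟩ := exists_eigenbasis' (ρ f) {α | ‖α‖ ^ 2 = q ^ n} hρ
    obtain ⟨b2, α2, h2, hb2⟩ := exists_eigenbasis' (σ f) {α | ‖α‖ ^ 2 = q} hσ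
    refine span_of_basis _ (b1.tensorProduct b2) (fun z => α1 z.1 * α2 z.2) ?_ _ ?_
    · rintro ⟨j, l⟩
      rw [Basis.tensorProduct_apply, Representation.tprod_apply, TensorProduct.map_tmul, hb1, hb2,
        TensorProduct.smul_tmul_smul]
    · rintro ⟨j, l⟩
      have h3 : ‖α1 j‖ ^ 2 = q ^ n := h1 j
      have h4 : ‖α2 l‖ ^ 2 = q := h2 l
      rw [norm_mul, mul_pow, h3, h4, pow_succ]
  obtain ⟨bγ, γ, hγ, hbγ⟩ := exists_eigenbasis' _ _
    (avg_diag hdeg hker hf (Representation.tprod ρ σ) ⊤ 1 hfT (q ^ (n + 1)) (pow_pos hq0 _) htens)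
  rw [Nat.cast_one] at hba hbw hbγ
  simp only [pow_one] at ha hw hγ
  -- the local averages
  have hloc : ∀ v : orbitRel.Quotient Γ Pt, ∃ (b : Basis (Fin (finrank ℂ U)) ℂ U)
      (β : Fin (finrank ℂ U) → ℂ),
      (∀ j, β j ∈ {α : ℂ | α = 0 ∨ ‖α‖ ^ 2 = (q ^ n) ^ ptDeg deg v.out}) ∧
      ∀ j, avg (lev deg (stabilizer Γ v.out) (ptDeg deg v.out : ℤ)) ρ (b j) = β j • b j := by
    intro v
    obtain ⟨φ, hφ⟩ := exists_frob hPt v.out
    exact exists_eigenbasis' _ _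
      (avg_diag hdeg hker hf ρ (stabilizer Γ v.out) (ptDeg deg v.out) hφ (q ^ n) (pow_pos hq0 n) hρ)
  choose bv β hβ hbv using hloc
  have hH0 : ((lev deg (⊤ : Subgroup Γ) 0).ncard : ℂ) ≠ 0 := by
    exact_mod_cast (lev_zero_pos hdeg hker _).ne'
  -- the power sums
  have hA : ∀ m : ℕ, 0 < m → ∑ l, a l ^ m = ((lev deg (⊤ : Subgroup Γ) 0).ncard : ℂ)⁻¹ *
      ∑ᶠ g ∈ lev deg (⊤ : Subgroup Γ) (m : ℤ), LinearMap.trace ℂ U (ρ g) :=
    fun m hm => sum_pow_eq hdeg hker hf ρ ba a hba m hm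
  have hG : ∀ m : ℕ, 0 < m → ∑ l, γ l ^ m = ((lev deg (⊤ : Subgroup Γ) 0).ncard : ℂ)⁻¹ *
      ∑ᶠ g ∈ lev deg (⊤ : Subgroup Γ) (m : ℤ),
        LinearMap.trace ℂ (U ⊗[ℂ] W) (Representation.tprod ρ σ g) :=
    fun m hm => sum_pow_eq hdeg hker hf _ bγ γ hbγ m hm
  have hWs : ∀ m : ℕ, 0 < m → ∑ l, w l ^ m = ((lev deg (⊤ : Subgroup Γ) 0).ncard : ℂ)⁻¹ *
      ∑ᶠ g ∈ lev deg (⊤ : Subgroup Γ) (m : ℤ), LinearMap.trace ℂ W (σ g) :=
    fun m hm => sum_pow_eq hdeg hker hf σ bw w hbw m hm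
  have hcount : ∀ m (hm : 0 < m), (∑ v ∈ (places_finite hdeg hker hPt hfin m hm).toFinset,
      (ptDeg deg v.out : ℂ) * ∑ l, β v l ^ (m / ptDeg deg v.out)) =
      ∑ j : Fin (finrank ℂ U) ⊕ Fin (finrank ℂ U),
        (Sum.elim a (fun l => (q : ℂ) * a l) j) ^ m - ∑ j, γ j ^ m := by
    intro m hm
    have h1 := trace_places hdeg hker hPt hf hfin m hm (fun g => LinearMap.trace ℂ U (ρ g))
      (fun g h => trace_conj ρ g h)
    have h2 : ∀ v ∈ (places_finite hdeg hker hPt hfin m hm).toFinset,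
        (ptDeg deg v.out : ℂ) * ∑ l, β v l ^ (m / ptDeg deg v.out) = (ptDeg deg v.out : ℂ) *
          (((lev deg (stabilizer Γ v.out) 0).ncard : ℂ)⁻¹ *
            ∑ᶠ g ∈ lev deg (stabilizer Γ v.out) m, LinearMap.trace ℂ U (ρ g)) := by
      intro v hv
      rw [Set.Finite.mem_toFinset] at hv
      have hv' : ptDeg deg v.out ∣ m := hv
      obtain ⟨φ, hφ⟩ := exists_frob hPt v.out
      have hpos : 0 < m / ptDeg deg v.out := Nat.div_pos (Nat.le_of_dvd hm hv') (ptDeg_pos hPt _)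
      rw [← trace_pow _ (bv v) (β v) (hbv v), avg_pow hdeg hker ρ hφ _ hpos,
        Nat.div_mul_cancel hv', trace_avg hdeg hker]
      have h3 := lev_mul_ncard hdeg hφ (m / ptDeg deg v.out)
      rw [Nat.div_mul_cancel hv'] at h3
      rw [h3]
    rw [Finset.sum_congr rfl h2, h1, Fintype.sum_sum_type]
    simp only [Sum.elim_inl, Sum.elim_inr, mul_pow]
    rw [← Finset.mul_sum, hA m hm, hG m hm]
    rw [finsum_mem_eq_finite_toFinset_sum _ (lev_finite hdeg hker ⊤ (m : ℤ)),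
      finsum_mem_eq_finite_toFinset_sum _ (lev_finite hdeg hker ⊤ (m : ℤ)),
      finsum_mem_eq_finite_toFinset_sum _ (lev_finite hdeg hker ⊤ (m : ℤ))]
    have h4 : ∀ g ∈ (lev_finite hdeg hker ⊤ (m : ℤ)).toFinset,
        LinearMap.trace ℂ U (ρ g) * ({x : Pt | g • x = x}.ncard : ℂ) =
        (1 + (q : ℂ) ^ m) * LinearMap.trace ℂ U (ρ g) -
          LinearMap.trace ℂ (U ⊗[ℂ] W) (Representation.tprod ρ σ g) := by
      intro g hg
      rw [Set.Finite.mem_toFinset] at hg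
      have hgd : deg g = (m : ℤ) := hg.2
      rw [(hfix g (by rw [hgd]; omega)).2, Representation.tprod_apply,
        LinearMap.trace_tensorProduct', hgd, zpow_natCast]
      ring
    rw [Finset.sum_congr rfl h4, Finset.sum_sub_distrib, ← Finset.mul_sum]
    ring
  have hgrowth : ∀ m (hm : 0 < m), (∑ v ∈ (places_finite hdeg hker hPt hfin m hm).toFinset,
      (ptDeg deg v.out : ℝ)) ≤ (2 + (finrank ℂ W : ℝ)) * q ^ m := by
    intro m hm
    have h1 := trace_places hdeg hker hPt hf hfin m hm (fun _ => 1) (fun g h => rfl)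
    have h2 : ∀ v ∈ (places_finite hdeg hker hPt hfin m hm).toFinset,
        (ptDeg deg v.out : ℂ) * (((lev deg (stabilizer Γ v.out) 0).ncard : ℂ)⁻¹ *
            ∑ᶠ g ∈ lev deg (stabilizer Γ v.out) m, (1 : ℂ)) = (ptDeg deg v.out : ℂ) := by
      intro v hv
      rw [Set.Finite.mem_toFinset] at hv
      have hv' : ptDeg deg v.out ∣ m := hv
      obtain ⟨φ, hφ⟩ := exists_frob hPt v.out
      have h3 := lev_mul_ncard hdeg hφ (m / ptDeg deg v.out)
      rw [Nat.div_mul_cancel hv'] at h3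
      rw [finsum_mem_eq_finite_toFinset_sum _ (lev_finite hdeg hker _ (m : ℤ)), Finset.sum_const,
        nsmul_eq_mul, mul_one, ← Set.ncard_eq_toFinset_card _ (lev_finite hdeg hker _ (m : ℤ)), h3,
        inv_mul_cancel₀, mul_one]
      exact_mod_cast (lev_zero_pos hdeg hker _).ne'
    rw [Finset.sum_congr rfl h2] at h1
    have h5 : ((lev deg (⊤ : Subgroup Γ) 0).ncard : ℂ)⁻¹ *
        ∑ᶠ g ∈ lev deg (⊤ : Subgroup Γ) (m : ℤ), 1 * ({x : Pt | g • x = x}.ncard : ℂ) =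
        1 + (q : ℂ) ^ m - ∑ l, w l ^ m := by
      rw [hWs m hm, finsum_mem_eq_finite_toFinset_sum _ (lev_finite hdeg hker ⊤ (m : ℤ)),
        finsum_mem_eq_finite_toFinset_sum _ (lev_finite hdeg hker ⊤ (m : ℤ))]
      have h4 : ∀ g ∈ (lev_finite hdeg hker ⊤ (m : ℤ)).toFinset,
          1 * ({x : Pt | g • x = x}.ncard : ℂ) =
          (1 + (q : ℂ) ^ m) - LinearMap.trace ℂ W (σ g) := by
        intro g hg
        rw [Set.Finite.mem_toFinset] at hg
        have hgd : deg g = (m : ℤ) := hg.2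
        rw [(hfix g (by rw [hgd]; omega)).2, hgd, zpow_natCast, one_mul]
      rw [Finset.sum_congr rfl h4, Finset.sum_sub_distrib, Finset.sum_const, nsmul_eq_mul,
        ← Set.ncard_eq_toFinset_card _ (lev_finite hdeg hker ⊤ (m : ℤ)), mul_sub, ← mul_assoc]
      have h6 := lev_mul_ncard hdeg hfT m
      rw [mul_one] at h6
      rw [h6, inv_mul_cancel₀ hH0, one_mul]
    have h7 : (∑ v ∈ (places_finite hdeg hker hPt hfin m hm).toFinset, (ptDeg deg v.out : ℝ)) =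
        ‖(∑ v ∈ (places_finite hdeg hker hPt hfin m hm).toFinset, (ptDeg deg v.out : ℂ))‖ := by
      have h8 : (∑ v ∈ (places_finite hdeg hker hPt hfin m hm).toFinset, (ptDeg deg v.out : ℂ)) =
          ((∑ v ∈ (places_finite hdeg hker hPt hfin m hm).toFinset, ptDeg deg v.out : ℕ) : ℂ) := by
        push_cast
        rfl
      rw [h8, Complex.norm_natCast]
      push_cast
      rfl
    rw [h7, h1, h5]
    have hqm : 1 ≤ q ^ m := one_le_pow₀ hq.le
    have hwq : ∀ l, ‖w l‖ ≤ q := by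
      intro l
      rcases hw l with h8 | h8
      · rw [h8, norm_zero]
        exact hq0.le
      · by_contra h9
        push Not at h9
        nlinarith [norm_nonneg (w l)]
    calc ‖1 + (q : ℂ) ^ m - ∑ l, w l ^ m‖ ≤ ‖(1 : ℂ)‖ + ‖(q : ℂ) ^ m‖ + ‖∑ l, w l ^ m‖ := by
          refine (norm_sub_le _ _).trans ?_
          exact add_le_add_left (norm_add_le _ _) _
      _ ≤ 1 + q ^ m + ∑ _l : Fin (finrank ℂ W), q ^ m := by
          refine add_le_add (add_le_add ?_ ?_) ?_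
          · simp
          · rw [norm_pow, Complex.norm_real, Real.norm_of_nonneg hq0.le]
          · refine (norm_sum_le _ _).trans (Finset.sum_le_sum fun l _ => ?_)
            rw [norm_pow]
            exact pow_le_pow_left₀ (norm_nonneg _) (hwq l) m
      _ ≤ (2 + (finrank ℂ W : ℝ)) * q ^ m := by
          rw [Finset.sum_const, Finset.card_univ, Fintype.card_fin, nsmul_eq_mul]
          linarith
  refine ⟨a, _, γ, ha, fun μ hμ => exists_tate hdeg hker hf _ bγ γ hbγ μ hμ, ?_⟩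
  intro s hs
  have hsq : ∀ r : ℝ, r < s.re → ‖(q : ℂ) ^ (-s)‖ * q ^ r < 1 := by
    intro r hr
    rw [norm_cpow_neg q hq0, ← Real.rpow_add hq0]
    exact Real.rpow_lt_one_of_one_lt_of_neg hq (by linarith)
  have hnorm : ∀ (N : ℕ) (z : ℂ), (z = 0 ∨ ‖z‖ ^ 2 = q ^ N) → ‖z‖ ≤ q ^ ((N : ℝ) / 2) := by
    intro N z hz
    rcases hz with h | h
    · rw [h, norm_zero]
      positivity
    · rw [norm_of_sq q hq0 N z h]
  have hn2 : (0 : ℝ) ≤ (n : ℝ) / 2 := by positivity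
  have hmain := hasProd_euler_fin (fun v : orbitRel.Quotient Γ Pt => ptDeg deg v.out)
    (fun v => ptDeg_pos hPt _) (places_finite hdeg hker hPt hfin) β (q ^ ((n : ℝ) / 2)) q
    (2 + (finrank ℂ W : ℝ)) (Real.one_le_rpow hq.le hn2) hq.le (by positivity) ?_ hgrowth γ
    (Sum.elim a (fun l => (q : ℂ) * a l)) hcount ((q : ℂ) ^ (-s)) ?_ ?_ ?_
  · change HasProd _ ((∏ j, (1 - γ j * (q : ℂ) ^ (-s))) /
      ∏ j, (1 - Sum.elim a (fun l => (q : ℂ) * a l) j * (q : ℂ) ^ (-s)))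
    convert hmain using 1
    funext v
    congr 1
    have h1 := det_one_sub _ (bv v) (β v) (hbv v) (((q : ℂ) ^ (-s)) ^ ptDeg deg v.out) 1
    simp only [pow_one] at h1
    exact h1
  · intro v l
    rcases hβ v l with h | h
    · rw [h, norm_zero]
      positivity
    · have h1 : ‖β v l‖ ^ 2 = ((q ^ ((n : ℝ) / 2)) ^ ptDeg deg v.out) ^ 2 := by
        have h2 : (q ^ ((n : ℝ) / 2)) ^ 2 = q ^ n := by
          rw [← Real.rpow_natCast, ← Real.rpow_natCast, ← Real.rpow_mul hq0.le]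
          congr 1
          push_cast
          ring
        rw [h, ← pow_mul (q ^ ((n : ℝ) / 2)), mul_comm _ 2, pow_mul (q ^ ((n : ℝ) / 2)), h2]
      exact ((pow_left_inj₀ (norm_nonneg _) (by positivity) two_ne_zero).1 h1).le
  · have h1 := hsq ((n : ℝ) / 2 + 1) hs
    rwa [Real.rpow_add hq0, Real.rpow_one] at h1
  · intro j
    rw [norm_mul, mul_comm]
    refine lt_of_le_of_lt ?_ (hsq (((n + 1 : ℕ) : ℝ) / 2) (by push_cast; linarith))
    exact mul_le_mul_of_nonneg_left (hnorm (n + 1) _ (hγ j)) (norm_nonneg _)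
  · rintro (j | j)
    · rw [Sum.elim_inl, norm_mul, mul_comm]
      refine lt_of_le_of_lt ?_ (hsq ((n : ℝ) / 2) (by linarith))
      exact mul_le_mul_of_nonneg_left (hnorm n _ (ha j)) (norm_nonneg _)
    · rw [Sum.elim_inr, norm_mul, norm_mul, Complex.norm_real, Real.norm_of_nonneg hq0.le, mul_comm]
      refine lt_of_le_of_lt ?_ (hsq ((n : ℝ) / 2 + 1) hs)
      refine mul_le_mul_of_nonneg_left ?_ (norm_nonneg _)
      rw [Real.rpow_add hq0, Real.rpow_one, mul_comm]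
      exact mul_le_mul_of_nonneg_right (hnorm n _ (ha j)) hq0.le

end LFun

end Pool.Agent.Y145.Iso
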