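import Pool.Agent.Y145.Iso.Group

/-!
# The trace formula and the closed points
-/

set_option autoImplicit false
set_option linter.unusedSectionVars false

namespace Pool.Agent.Y145.Iso

open Module MulAction

section Points

variable {Γ : Type*} [Group Γ] {deg : Γ → ℤ} {Pt : Type*} [MulAction Γ Pt]

variable (hdeg : ∀ g h, deg (g * h) = deg g + deg h) (hker : {g | deg g = 0}.Finite)
  (hPt : ∀ x : Pt, ∃ g : Γ, g • x = x ∧ 0 < deg g)

open Classical in
/-- The union of the levels `0, ..., d - 1`. -/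
noncomputable def lowSet (d : ℕ) : Finset Γ :=
  (Finset.range d).biUnion fun j => (lev_finite hdeg hker ⊤ (j : ℤ)).toFinset

include hdeg hker

theorem mem_lowSet (d : ℕ) (g : Γ) : g ∈ lowSet hdeg hker d ↔ 0 ≤ deg g ∧ deg g < d := by
  classical
  unfold lowSet
  rw [Finset.mem_biUnion]
  constructor
  · rintro ⟨j, hj, hg⟩
    rw [Finset.mem_range] at hj
    rw [Set.Finite.mem_toFinset] at hg
    have := hg.2
    omega
  · rintro ⟨h1, h2⟩
    refine ⟨(deg g).toNat, Finset.mem_range.2 (by omega), ?_⟩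
    rw [Set.Finite.mem_toFinset]
    exact ⟨Subgroup.mem_top _, by omega⟩

theorem card_lowSet {f : Γ} (hf : deg f = 1) (d : ℕ) :
    (lowSet hdeg hker d).card = d * (lev deg (⊤ : Subgroup Γ) 0).ncard := by
  classical
  unfold lowSet
  rw [Finset.card_biUnion]
  · have h1 : ∀ j ∈ Finset.range d, (lev_finite hdeg hker ⊤ (j : ℤ)).toFinset.card =
        (lev deg (⊤ : Subgroup Γ) 0).ncard := by
      intro j _
      rw [← Set.ncard_eq_toFinset_card _ (lev_finite hdeg hker ⊤ (j : ℤ))]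
      have h2 : f ∈ lev deg (⊤ : Subgroup Γ) ((1 : ℕ) : ℤ) := ⟨Subgroup.mem_top _, by simpa using hf⟩
      have h3 := lev_mul_ncard hdeg h2 j
      rw [mul_one] at h3
      exact h3
    rw [Finset.sum_congr rfl h1, Finset.sum_const, Finset.card_range, smul_eq_mul]
  · intro i _ j _ hij
    rw [Function.onFun, Finset.disjoint_left]
    intro g hg hg'
    rw [Set.Finite.mem_toFinset] at hg hg'
    apply hij
    have h1 := hg.2
    have h2 := hg'.2
    omega

include hPt

theorem exists_low (x y : Pt) (hy : y ∈ orbit Γ x) :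
    ∃ g ∈ lowSet hdeg hker (ptDeg deg x), g • x = y := by
  obtain ⟨g, rfl⟩ := hy
  obtain ⟨φ, hφ1, hφ2⟩ := exists_frob hPt x
  have hpos := ptDeg_pos hPt x
  refine ⟨g * φ ^ (-(deg g / ptDeg deg x)), ?_, ?_⟩
  · rw [mem_lowSet, hdeg, deg_zpow hdeg, hφ2]
    have h1 := Int.emod_add_mul_ediv (deg g) (ptDeg deg x)
    have h2 := Int.emod_nonneg (deg g) (by omega : (ptDeg deg x : ℤ) ≠ 0)
    have h3 := Int.emod_lt_of_pos (deg g) (by omega : (0 : ℤ) < ptDeg deg x)
    constructor <;> linarith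
  · have h4 : φ ^ (-(deg g / ptDeg deg x)) ∈ stabilizer Γ x := Subgroup.zpow_mem _ hφ1 _
    change _ = g • x
    rw [mul_smul, mem_stabilizer_iff.1 h4]

theorem orbit_finite (x : Pt) : (orbit Γ x).Finite := by
  refine ((lowSet hdeg hker (ptDeg deg x)).finite_toSet.image (fun g => g • x)).subset ?_
  intro y hy
  obtain ⟨g, hg, h⟩ := exists_low hdeg hker hPt x y hy
  exact ⟨g, hg, h⟩

/-- The number of points of an orbit. -/
theorem orbit_card {f : Γ} (hf : deg f = 1) (x : Pt) :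
    (orbit Γ x).ncard * (lev deg (stabilizer Γ x) 0).ncard =
      ptDeg deg x * (lev deg (⊤ : Subgroup Γ) 0).ncard := by
  classical
  have hfin := orbit_finite hdeg hker hPt x
  have hpos := ptDeg_pos hPt x
  rw [← card_lowSet hdeg hker hf]
  have hmaps : ∀ g ∈ lowSet hdeg hker (ptDeg deg x), g • x ∈ hfin.toFinset := by
    intro g _
    rw [Set.Finite.mem_toFinset]
    exact ⟨g, rfl⟩
  rw [Finset.card_eq_sum_card_fiberwise hmaps, Set.ncard_eq_toFinset_card _ hfin]
  have h1 : ∀ y ∈ hfin.toFinset,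
      ((lowSet hdeg hker (ptDeg deg x)).filter (fun g => g • x = y)).card =
        (lev deg (stabilizer Γ x) 0).ncard := by
    intro y hy
    rw [Set.Finite.mem_toFinset] at hy
    obtain ⟨g₁, hg₁, hg₁x⟩ := exists_low hdeg hker hPt x y hy
    rw [Set.ncard_eq_toFinset_card _ (lev_finite hdeg hker _ 0)]
    symm
    refine Finset.card_nbij (fun h => g₁ * h) ?_ ?_ ?_
    · intro h hh
      rw [Finset.mem_coe, Set.Finite.mem_toFinset] at hh
      rw [Finset.mem_coe, Finset.mem_filter]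
      rw [mem_lowSet] at hg₁ ⊢
      refine ⟨?_, ?_⟩
      · rw [hdeg, hh.2, add_zero]
        exact hg₁
      · rw [mul_smul, mem_stabilizer_iff.1 hh.1, hg₁x]
    · intro h _ h' _ hhh
      exact mul_left_cancel hhh
    · intro g hg
      rw [Finset.mem_coe, Finset.mem_filter] at hg
      refine ⟨g₁⁻¹ * g, ?_, by simp⟩
      rw [Finset.mem_coe, Set.Finite.mem_toFinset]
      have hst : (g₁⁻¹ * g) • x = x := by
        rw [mul_smul, hg.2, ← hg₁x, inv_smul_smul]
      refine ⟨hst, ?_⟩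
      have h2 := ptDeg_dvd hdeg hPt x _ hst
      have h3 : deg (g₁⁻¹ * g) = deg g - deg g₁ := by
        rw [hdeg, deg_inv hdeg]
        ring
      rw [mem_lowSet] at hg₁
      have h4 := (mem_lowSet hdeg hker _ _).1 hg.1
      rw [h3] at h2 ⊢
      have h5 : |deg g - deg g₁| < ptDeg deg x := by
        rw [abs_lt]
        constructor <;> linarith [h4.1, h4.2, hg₁.1, hg₁.2]
      exact Int.eq_zero_of_abs_lt_dvd h2 h5
  rw [Finset.sum_congr rfl h1, Finset.sum_const, smul_eq_mul]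

omit hPt in
theorem lev_conj_sum (t : Γ → ℂ) (ht : ∀ g h, t (h * g * h⁻¹) = t g) (x : Pt) (h : Γ) (m : ℤ) :
    ∑ᶠ g ∈ lev deg (stabilizer Γ (h • x)) m, t g = ∑ᶠ g ∈ lev deg (stabilizer Γ x) m, t g := by
  classical
  rw [finsum_mem_eq_finite_toFinset_sum _ (lev_finite hdeg hker _ m),
    finsum_mem_eq_finite_toFinset_sum _ (lev_finite hdeg hker _ m)]
  symm
  refine Finset.sum_nbij (fun g => h * g * h⁻¹) ?_ ?_ ?_ ?_
  · intro g hg
    rw [Set.Finite.mem_toFinset] at hg ⊢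
    refine ⟨?_, ?_⟩
    · rw [mem_stabilizer_iff, mul_smul, mul_smul, inv_smul_smul, mem_stabilizer_iff.1 hg.1]
    · rw [hdeg, hdeg, deg_inv hdeg, hg.2]
      ring
  · intro g _ g' _ hgg
    exact mul_left_cancel (mul_right_cancel hgg)
  · intro g hg
    rw [Set.Finite.coe_toFinset] at hg ⊢
    refine ⟨h⁻¹ * g * h, ⟨?_, ?_⟩, by group⟩
    · rw [mem_stabilizer_iff, mul_smul, mul_smul, mem_stabilizer_iff.1 hg.1, inv_smul_smul]
    · rw [hdeg, hdeg, deg_inv hdeg, hg.2]
      ring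
  · intro g _
    exact (ht g h).symm

/-- The set of points fixed by an element of degree `m` is finite. -/
theorem places_finite (hfix : ∀ g : Γ, 0 < deg g → {x : Pt | g • x = x}.Finite) (m : ℕ)
    (hm : 0 < m) : {v : orbitRel.Quotient Γ Pt | ptDeg deg v.out ∣ m}.Finite := by
  have h1 : {v : orbitRel.Quotient Γ Pt | ptDeg deg v.out ∣ m} ⊆
      (fun y : Pt => (Quotient.mk _ y : orbitRel.Quotient Γ Pt)) ''
        (⋃ g ∈ lev deg (⊤ : Subgroup Γ) m, {x : Pt | g • x = x}) := by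
    intro v hv
    obtain ⟨g, hg1, hg2⟩ := (lev_nonempty_iff hdeg hPt v.out m hm).2 hv
    refine ⟨v.out, ?_, Quotient.out_eq v⟩
    rw [Set.mem_iUnion₂]
    exact ⟨g, ⟨Subgroup.mem_top _, hg2⟩, hg1⟩
  refine (Set.Finite.image _ ?_).subset h1
  refine (lev_finite hdeg hker ⊤ m).biUnion fun g hg => hfix g ?_
  rw [hg.2]
  omega

/-- **The trace formula and the closed points.** -/
theorem trace_places {f : Γ} (hf : deg f = 1)
    (hfix : ∀ g : Γ, 0 < deg g → {x : Pt | g • x = x}.Finite) (m : ℕ)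
    (hm : 0 < m) (t : Γ → ℂ) (ht : ∀ g h, t (h * g * h⁻¹) = t g) :
    ∑ v ∈ (places_finite hdeg hker hPt hfix m hm).toFinset, (ptDeg deg v.out : ℂ) *
      (((lev deg (stabilizer Γ v.out) 0).ncard : ℂ)⁻¹ *
        ∑ᶠ g ∈ lev deg (stabilizer Γ v.out) m, t g) =
      ((lev deg (⊤ : Subgroup Γ) 0).ncard : ℂ)⁻¹ *
        ∑ᶠ g ∈ lev deg (⊤ : Subgroup Γ) m, t g * ({x : Pt | g • x = x}.ncard : ℂ) := by
  classical
  have hlev := lev_finite hdeg hker (⊤ : Subgroup Γ) (m : ℤ)
  have hYfin : (⋃ g ∈ lev deg (⊤ : Subgroup Γ) m, {x : Pt | g • x = x}).Finite := by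
    refine hlev.biUnion fun g hg => hfix g ?_
    rw [hg.2]
    omega
  let Y : Finset Pt := hYfin.toFinset
  have hY : ∀ y, y ∈ Y ↔ (lev deg (stabilizer Γ y) (m : ℤ)).Nonempty := by
    intro y
    rw [Set.Finite.mem_toFinset, Set.mem_iUnion₂]
    constructor
    · rintro ⟨g, hg, hgy⟩
      exact ⟨g, hgy, hg.2⟩
    · rintro ⟨g, hgy, hg⟩
      exact ⟨g, ⟨Subgroup.mem_top _, hg⟩, hgy⟩
  let c : Pt → ℂ := fun y => ∑ᶠ g ∈ lev deg (stabilizer Γ y) m, t g
  have hcinv : ∀ (h : Γ) (y : Pt), c (h • y) = c y := fun h y =>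
    lev_conj_sum hdeg hker t ht y h m
  have hYinv : ∀ (h : Γ) (y : Pt), y ∈ Y → h • y ∈ Y := by
    intro h y hy
    rw [hY] at hy ⊢
    obtain ⟨g, hg1, hg2⟩ := hy
    refine ⟨h * g * h⁻¹, ?_, ?_⟩
    · rw [mem_stabilizer_iff, mul_smul, mul_smul, inv_smul_smul, mem_stabilizer_iff.1 hg1]
    · rw [hdeg, hdeg, deg_inv hdeg, hg2]
      ring
  -- the right side
  have hR : ∑ᶠ g ∈ lev deg (⊤ : Subgroup Γ) m, t g * ({x : Pt | g • x = x}.ncard : ℂ) =
      ∑ y ∈ Y, c y := by
    rw [finsum_mem_eq_finite_toFinset_sum _ hlev]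
    have h1 : ∀ g ∈ hlev.toFinset, t g * ({x : Pt | g • x = x}.ncard : ℂ) =
        ∑ y ∈ Y, if g • y = y then t g else 0 := by
      intro g hg
      rw [Set.Finite.mem_toFinset] at hg
      rw [← Finset.sum_filter, Finset.sum_const, nsmul_eq_mul, mul_comm]
      congr 2
      have hgf : {x : Pt | g • x = x}.Finite := hfix g (by rw [hg.2]; omega)
      rw [Set.ncard_eq_toFinset_card _ hgf]
      congr 1
      ext y
      rw [Set.Finite.mem_toFinset, Finset.mem_filter, hY]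
      constructor
      · intro hy
        exact ⟨⟨g, hy, hg.2⟩, hy⟩
      · rintro ⟨_, hy⟩
        exact hy
    rw [Finset.sum_congr rfl h1, Finset.sum_comm]
    refine Finset.sum_congr rfl fun y hy => ?_
    change _ = ∑ᶠ g ∈ lev deg (stabilizer Γ y) m, t g
    rw [finsum_mem_eq_finite_toFinset_sum _ (lev_finite hdeg hker _ (m : ℤ)), ← Finset.sum_filter]
    refine Finset.sum_congr ?_ fun _ _ => rfl
    ext g
    rw [Finset.mem_filter, Set.Finite.mem_toFinset, Set.Finite.mem_toFinset]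
    constructor
    · rintro ⟨h1, h2⟩
      exact ⟨h2, h1.2⟩
    · rintro ⟨h1, h2⟩
      exact ⟨⟨Subgroup.mem_top _, h2⟩, h1⟩
  rw [hR]
  have hmaps : ∀ y ∈ Y, (Quotient.mk _ y : orbitRel.Quotient Γ Pt) ∈
      (places_finite hdeg hker hPt hfix m hm).toFinset := by
    intro y hy
    rw [Set.Finite.mem_toFinset]
    change ptDeg deg (Quotient.out (Quotient.mk _ y : orbitRel.Quotient Γ Pt)) ∣ m
    rw [← lev_nonempty_iff hdeg hPt _ m hm, ← hY]
    obtain ⟨h, hh⟩ : (Quotient.out (Quotient.mk _ y : orbitRel.Quotient Γ Pt)) ∈ orbit Γ y := by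
      have h1 := Quotient.mk_out (s := orbitRel Γ Pt) y
      exact h1
    rw [← hh]
    exact hYinv h y hy
  rw [← Finset.sum_fiberwise_of_maps_to hmaps, Finset.mul_sum]
  refine Finset.sum_congr rfl fun v hv => ?_
  rw [Set.Finite.mem_toFinset] at hv
  have hvY : v.out ∈ Y := by
    rw [hY]
    exact (lev_nonempty_iff hdeg hPt v.out m hm).2 hv
  have hfib : ∀ y, y ∈ Y.filter (fun y => (Quotient.mk _ y : orbitRel.Quotient Γ Pt) = v) ↔
      y ∈ orbit Γ v.out := by
    intro y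
    rw [Finset.mem_filter]
    constructor
    · rintro ⟨_, h1⟩
      rw [← h1]
      have h2 := Quotient.mk_out (s := orbitRel Γ Pt) y
      exact (orbitRel Γ Pt).symm h2
    · intro h1
      obtain ⟨h, rfl⟩ := h1
      refine ⟨hYinv h _ hvY, ?_⟩
      rw [← Quotient.out_eq v]
      refine Quotient.sound ?_
      exact ⟨h, by rw [Quotient.out_eq]⟩
  have horb := orbit_finite hdeg hker hPt v.out
  have hfib' : Y.filter (fun y => (Quotient.mk _ y : orbitRel.Quotient Γ Pt) = v) =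
      horb.toFinset := by
    ext y
    rw [hfib, Set.Finite.mem_toFinset]
  rw [hfib']
  have h3 : ∀ y ∈ horb.toFinset, c y = c v.out := by
    intro y hy
    rw [Set.Finite.mem_toFinset] at hy
    obtain ⟨h, rfl⟩ := hy
    exact hcinv h _
  rw [Finset.sum_congr rfl h3, Finset.sum_const, nsmul_eq_mul, ← Set.ncard_eq_toFinset_card _ horb]
  have h4 := orbit_card hdeg hker hPt hf v.out
  have h5 : ((lev deg (stabilizer Γ v.out) 0).ncard : ℂ) ≠ 0 := by
    exact_mod_cast (lev_zero_pos hdeg hker _).ne'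
  have h6 : ((lev deg (⊤ : Subgroup Γ) 0).ncard : ℂ) ≠ 0 := by
    exact_mod_cast (lev_zero_pos hdeg hker _).ne'
  have h7 : ((orbit Γ v.out).ncard : ℂ) * ((lev deg (stabilizer Γ v.out) 0).ncard : ℂ) =
      (ptDeg deg v.out : ℂ) * ((lev deg (⊤ : Subgroup Γ) 0).ncard : ℂ) := by
    exact_mod_cast h4
  change _ * (_ * c v.out) = _
  field_simp
  linear_combination -c v.out * h7

end Points

end Pool.Agent.Y145.Iso
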